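import Mathlib

set_option autoImplicit false

/-!
# The bidirectional `k`-neighbour graph on `ℤ^d`: definitions
-/

namespace Pool.Agent.X136.BN

open MeasureTheory ProbabilityTheory

/-- A direction of `ℤ^d`: a coordinate and a sign (`true` for `+`, `false` for `-`). -/
abbrev Dir (d : ℕ) : Type := Fin d × Bool

/-- The unit vector of a direction. -/
def vec {d : ℕ} (u : Dir d) : Fin d → ℤ := Pi.single u.1 (if u.2 then 1 else -1)

/-- The opposite direction. -/
def opp {d : ℕ} (u : Dir d) : Dir d := (u.1, !u.2)

/-- A choice of exactly `k` of the `2 d` directions. -/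
abbrev Choice (d k : ℕ) : Type := {S : Finset (Dir d) // S.card = k}

/-- A configuration: every vertex of `ℤ^d` chooses `k` of its `2 d` nearest neighbours. -/
abbrev Config (d k : ℕ) : Type := (Fin d → ℤ) → Choice d k

/-- The bidirectional `k`-neighbour graph: the nearest neighbours `x` and `x + vec u` are joined when
`x` chose `x + vec u` and `x + vec u` chose `x`. -/
def bng {d k : ℕ} (ω : Config d k) : SimpleGraph (Fin d → ℤ) where
  Adj x y := ∃ u : Dir d, y = x + vec u ∧ u ∈ (ω x).1 ∧ opp u ∈ (ω y).1
  symm := ⟨fun x y h => by
    obtain ⟨u, h1, h2, h3⟩ := h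
    have e : vec (opp u) = -vec u := by
      unfold vec opp
      rw [← Pi.single_neg]
      rcases u with ⟨i, b⟩
      cases b <;> simp
    refine ⟨opp u, ?_, h3, ?_⟩
    · rw [h1, e, add_neg_cancel_right]
    · have : opp (opp u) = u := by
        unfold opp; simp
      rw [this]; exact h2⟩
  loopless := ⟨fun x h => by
    obtain ⟨u, h1, -, -⟩ := h
    have h2 : vec u = 0 := by
      have := h1
      rwa [left_eq_add] at this
    have h3 := congrFun h2 u.1
    unfold vec at h3
    rw [Pi.single_eq_same] at h3
    rcases u with ⟨i, b⟩
    cases b <;> simp at h3⟩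

theorem choice_nonempty {d k : ℕ} (h : k ≤ 2 * d) : Nonempty (Choice d k) := by
  obtain ⟨S, -, hS⟩ := Finset.exists_subset_card_eq (s := (Finset.univ : Finset (Dir d)))
    (n := k) (by rw [Finset.card_univ, Fintype.card_prod, Fintype.card_fin, Fintype.card_bool]; omega)
  exact ⟨⟨S, hS⟩⟩

/-- The uniform distribution on the choices of `k` directions. -/
noncomputable def choiceLaw (d k : ℕ) : Measure (Choice d k) := uniformOn Set.univ

theorem choiceLaw_prob {d k : ℕ} (h : k ≤ 2 * d) : IsProbabilityMeasure (choiceLaw d k) :=
  haveI := choice_nonempty h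
  isProbabilityMeasure_uniformOn Set.finite_univ Set.univ_nonempty

/-- The law of the configuration: the vertices choose independently and uniformly. -/
noncomputable def law (d k : ℕ) (h : k ≤ 2 * d) : Measure (Config d k) :=
  haveI := choiceLaw_prob h
  Measure.infinitePi fun _ : Fin d → ℤ => choiceLaw d k

/-- The percolation probability `θ^B(k, d)`: the probability that the connected component of the
origin in the bidirectional `k`-neighbour graph is infinite. -/
noncomputable def theta (d k : ℕ) (h : k ≤ 2 * d) : ENNReal :=
  law d k h {ω | ((bng ω).connectedComponentMk 0).supp.Infinite}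

end Pool.Agent.X136.BN
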