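import Pool.Agent.X136.BN.Walk

set_option autoImplicit false

/-!
# The generating function of the number of shared edges
-/

namespace Pool.Agent.X136.BN

open Finset

/-- the constant of the collision bound -/
noncomputable def RR : ℝ := ∑' t : ℕ, (3 : ℝ) ^ (3 / 2 : ℝ) * (((t + 1 : ℕ) : ℝ) ^ (-(3 / 2) : ℝ))

theorem summable_RR :
    Summable fun t : ℕ => (3 : ℝ) ^ (3 / 2 : ℝ) * (((t + 1 : ℕ) : ℝ) ^ (-(3 / 2) : ℝ)) := by
  refine Summable.mul_left _ ?_
  have h1 : Summable fun n : ℕ => ((n : ℝ)) ^ (-(3 / 2) : ℝ) :=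
    Real.summable_nat_rpow.2 (by norm_num)
  exact (summable_nat_add_iff 1).2 h1

theorem RR_nonneg : 0 ≤ RR := tsum_nonneg fun t => by positivity

section

variable {d h : ℕ}

theorem rr_zero_le (hd : 6 * h ≤ d) (hh : 0 < h) (t φ : ℕ) :
    rr hd t φ 0 ≤ (3 : ℝ) ^ (3 / 2 : ℝ) * (((t + 1 : ℕ) : ℝ) ^ (-(3 / 2) : ℝ)) := by
  have hB : ∀ b, Bf hd b 0 = 0 := fun b => by unfold Bf; simp
  refine (rr_le hd hh t φ 0).trans ?_
  have h0 : (0 : ℝ) < 2 * ((t / 3 : ℕ) : ℝ) + 1 := by positivity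
  have h1 : ∏ b ∈ range 3, fb (cnt b t φ) (Bf hd b 0) ≤
      ∏ b ∈ range 3, (2 * ((t / 3 : ℕ) : ℝ) + 1) ^ (-(1 / 2) : ℝ) := by
    refine Finset.prod_le_prod (fun b _ => fb_nonneg _ _) fun b hb => ?_
    rw [hB]
    exact fb_le _ _ (cnt_ge b (Finset.mem_range.1 hb) t φ)
  refine h1.trans ?_
  rw [Finset.prod_const, Finset.card_range, ← Real.rpow_natCast, ← Real.rpow_mul h0.le]
  have e : (-(1 / 2) : ℝ) * ((3 : ℕ) : ℝ) = -(3 / 2) := by norm_num
  rw [e]
  have h2 : (((t + 1 : ℕ) : ℝ)) / 3 ≤ 2 * ((t / 3 : ℕ) : ℝ) + 1 := by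
    rw [div_le_iff₀ (by norm_num)]
    have : t + 1 ≤ (2 * (t / 3) + 1) * 3 := by omega
    exact_mod_cast this
  have h3 : (0 : ℝ) < ((t + 1 : ℕ) : ℝ) := by positivity
  calc (2 * ((t / 3 : ℕ) : ℝ) + 1) ^ (-(3 / 2) : ℝ)
      ≤ ((((t + 1 : ℕ) : ℝ)) / 3) ^ (-(3 / 2) : ℝ) :=
        Real.rpow_le_rpow_of_nonpos (by positivity) h2 (by norm_num)
    _ = (3 : ℝ) ^ (3 / 2 : ℝ) * (((t + 1 : ℕ) : ℝ) ^ (-(3 / 2) : ℝ)) := by
        rw [Real.div_rpow h3.le (by norm_num), div_eq_mul_inv, ← Real.rpow_neg (by norm_num),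
          neg_neg, mul_comm]

theorem sum_rr_le (hd : 6 * h ≤ d) (hh : 0 < h) (n φ : ℕ) :
    ∑ t ∈ range n, rr hd t φ 0 ≤ RR :=
  (Finset.sum_le_sum fun t _ => rr_zero_le hd hh t φ).trans
    (summable_RR.sum_le_tsum _ fun t _ => by positivity)

/-- normalised generating function of the number of shared edges -/
noncomputable def GG (hd : 6 * h ≤ d) (g : ℝ) : ℕ → ℕ → (Fin d → ℤ) → ℝ
  | 0, _, _ => 1
  | n + 1, φ, D => (∑ a : Al h, ∑ a' : Al h, (if D = 0 ∧ a = a' then g else 1) *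
      GG hd g n (φ + 1) (D + ste hd φ a - ste hd φ a')) / (2 * h) ^ 2

theorem card_Al : (Fintype.card (Al h) : ℝ) = 2 * h := by
  rw [Fintype.card_prod, Fintype.card_bool, Fintype.card_fin]
  push_cast
  ring

theorem GG_le (hd : 6 * h ≤ d) (hh : 0 < h) {g : ℝ} (hg : 1 ≤ g)
    (hgR : g / (2 * h) * RR ≤ 1 / 2) (n : ℕ) :
    ∀ φ D, GG hd g n φ D ≤ 1 + 2 * (g / (2 * h)) * ∑ t ∈ range n, rr hd t φ D := by
  have hh' : (0 : ℝ) < 2 * h := by positivity
  have hgh : 0 < g / (2 * (h : ℝ)) := by positivity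
  induction n with
  | zero => intro φ D; unfold GG; simp
  | succ n ih =>
    intro φ D
    have hz : ∀ φ, GG hd g n φ 0 ≤ 2 := by
      intro φ
      refine (ih φ 0).trans ?_
      have h1 := sum_rr_le hd hh n φ
      have h2 : 2 * (g / (2 * h)) * ∑ t ∈ range n, rr hd t φ 0 ≤ 2 * (g / (2 * h)) * RR :=
        mul_le_mul_of_nonneg_left h1 (by positivity)
      nlinarith
    have hs : ∑ t ∈ range (n + 1), rr hd t φ D = rr hd 0 φ D +
        (∑ a : Al h, ∑ a' : Al h, ∑ t ∈ range n, rr hd t (φ + 1) (D + ste hd φ a - ste hd φ a')) /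
          (2 * h) ^ 2 := by
      rw [Finset.sum_range_succ', add_comm]
      congr 1
      have h3 : ∀ t, rr hd (t + 1) φ D = (∑ a : Al h, ∑ a' : Al h,
        rr hd t (φ + 1) (D + ste hd φ a - ste hd φ a')) / (2 * h) ^ 2 := fun t => rfl
      simp only [h3]
      rw [← Finset.sum_div]
      congr 1
      rw [Finset.sum_comm]
      refine Finset.sum_congr rfl fun a _ => ?_
      rw [Finset.sum_comm]
    have h4 : ∀ a a' : Al h, (if D = 0 ∧ a = a' then g else 1) *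
        GG hd g n (φ + 1) (D + ste hd φ a - ste hd φ a') ≤
        (1 + 2 * (g / (2 * h)) * ∑ t ∈ range n, rr hd t (φ + 1) (D + ste hd φ a - ste hd φ a')) +
        (if D = 0 ∧ a = a' then 2 * g else 0) := by
      intro a a'
      by_cases hc : D = 0 ∧ a = a'
      · rw [if_pos hc, if_pos hc]
        obtain ⟨rfl, rfl⟩ := hc
        have e : (0 : Fin d → ℤ) + ste hd φ a - ste hd φ a = 0 := by abel
        rw [e]
        have h5 := ih (φ + 1) 0
        have h6 := hz (φ + 1)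
        have h7 : 0 ≤ ∑ t ∈ range n, rr hd t (φ + 1) 0 :=
          Finset.sum_nonneg fun t _ => rr_nonneg hd _ _ _
        have h8 : 0 ≤ 2 * (g / (2 * h)) * ∑ t ∈ range n, rr hd t (φ + 1) 0 := by positivity
        nlinarith
      · rw [if_neg hc, if_neg hc, one_mul, add_zero]
        exact ih _ _
    have h5 : GG hd g (n + 1) φ D ≤ (∑ a : Al h, ∑ a' : Al h,
        ((1 + 2 * (g / (2 * h)) * ∑ t ∈ range n, rr hd t (φ + 1) (D + ste hd φ a - ste hd φ a')) +
        (if D = 0 ∧ a = a' then 2 * g else 0))) / (2 * h) ^ 2 := by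
      show (∑ a : Al h, ∑ a' : Al h, (if D = 0 ∧ a = a' then g else 1) *
        GG hd g n (φ + 1) (D + ste hd φ a - ste hd φ a')) / (2 * (h:ℝ)) ^ 2 ≤ _
      refine div_le_div_of_nonneg_right ?_ (by positivity)
      exact Finset.sum_le_sum fun a _ => Finset.sum_le_sum fun a' _ => h4 a a'
    refine h5.trans (le_of_eq ?_)
    rw [hs]
    have h6 : (∑ a : Al h, ∑ a' : Al h,
        ((1 + 2 * (g / (2 * (h:ℝ))) * ∑ t ∈ range n,
          rr hd t (φ + 1) (D + ste hd φ a - ste hd φ a')) +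
        (if D = 0 ∧ a = a' then 2 * g else 0))) =
        (2 * (h:ℝ)) ^ 2 + 2 * (g / (2 * (h:ℝ))) * (∑ a : Al h, ∑ a' : Al h, ∑ t ∈ range n,
          rr hd t (φ + 1) (D + ste hd φ a - ste hd φ a')) +
        (if D = 0 then 2 * g * (2 * h) else 0) := by
      simp only [Finset.sum_add_distrib, Finset.mul_sum]
      congr 1
      · congr 1
        simp only [Finset.sum_const, Finset.card_univ, nsmul_eq_mul, mul_one]
        rw [card_Al]; ring
      · by_cases hD : D = 0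
        · simp only [hD, true_and, if_true, Finset.sum_ite_eq, Finset.mem_univ, Finset.sum_const,
            Finset.card_univ, nsmul_eq_mul]
          rw [card_Al]; ring
        · simp [hD]
    rw [h6]
    have h7 : rr hd 0 φ D = if D = 0 then 1 else 0 := rfl
    rw [h7]
    by_cases hD : D = 0
    · rw [if_pos hD, if_pos hD]
      field_simp
      ring
    · rw [if_neg hD, if_neg hD]
      field_simp
      ring

theorem GG_zero_le (hd : 6 * h ≤ d) (hh : 0 < h) {g : ℝ} (hg : 1 ≤ g)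
    (hgR : g / (2 * h) * RR ≤ 1 / 2) (n φ : ℕ) : GG hd g n φ 0 ≤ 2 := by
  have hh' : (0 : ℝ) < 2 * h := by positivity
  have hgh : 0 < g / (2 * (h : ℝ)) := by positivity
  refine (GG_le hd hh hg hgR n φ 0).trans ?_
  have h1 := sum_rr_le hd hh n φ
  have h2 : 2 * (g / (2 * h)) * ∑ t ∈ range n, rr hd t φ 0 ≤ 2 * (g / (2 * h)) * RR :=
    mul_le_mul_of_nonneg_left h1 (by positivity)
  nlinarith

end

end Pool.Agent.X136.BN
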