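import Pool.Agent.X136.BN.Perc

set_option autoImplicit false

/-!
# No percolation for few choices, and percolation for all choices
-/

namespace Pool.Agent.X136.BN

open Finset MeasureTheory ProbabilityTheory Filter Topology

section

variable {d k : ℕ}

/-- the vertices of the walk with the directions `w` -/
def xs (w : ℕ → Dir d) (t : ℕ) : Fin d → ℤ := ∑ j ∈ range t, vec (w j)

theorem xs_succ (w : ℕ → Dir d) (t : ℕ) : xs w (t + 1) = xs w t + vec (w t) := by
  unfold xs; rw [Finset.sum_range_succ]

theorem vec_opp (u : Dir d) : vec (opp u) = -vec u := by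
  unfold vec opp
  rw [← Pi.single_neg]
  rcases u with ⟨i, b⟩
  cases b <;> simp

/-- the requirement at the vertex `s + 1` of the walk -/
def rq (w : ℕ → Dir d) (s : ℕ) : Finset (Dir d) := {opp (w s), w (s + 1)}

/-- the requirements of the interior vertices -/
def Ew (k : ℕ) (w : ℕ → Dir d) (m : ℕ) : Set (Config d k) :=
  {ω | Set.InjOn (xs w) {t | t ≤ m + 1} ∧ ∀ s < m, rq w s ⊆ (ω (xs w (s + 1))).1}

theorem prob_Ew (hkd : k ≤ 2 * d) (w : ℕ → Dir d) (m : ℕ) :
    law d k hkd (Ew k w m) ≤ ENNReal.ofReal (pr (2 * d) k 2) ^ m := by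
  by_cases hinj : Set.InjOn (xs w) {t | t ≤ m + 1}
  · set X : Finset (Fin d → ℤ) := (range m).image fun s => xs w (s + 1) with hX
    set N : (Fin d → ℤ) → Finset (Dir d) := fun x =>
      ((range m).filter fun s => xs w (s + 1) = x).biUnion (rq w) with hN
    have hNs : ∀ s < m, N (xs w (s + 1)) = rq w s := by
      intro s hs
      have : ((range m).filter fun s' => xs w (s' + 1) = xs w (s + 1)) = {s} := by
        ext s'
        rw [Finset.mem_filter, Finset.mem_range, Finset.mem_singleton]
        constructor
        · rintro ⟨h1, h2⟩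
          have := hinj (by simp; omega) (by simp; omega) h2
          omega
        · rintro rfl; exact ⟨hs, rfl⟩
      rw [hN]
      simp only
      rw [this, Finset.singleton_biUnion]
    have hcard : ∀ s < m, (rq w s).card = 2 := by
      intro s hs
      unfold rq
      rw [Finset.card_pair]
      intro he
      have h1 : xs w (s + 1 + 1) = xs w s := by
        rw [xs_succ, xs_succ, ← he, vec_opp]; abel
      have := hinj (by simp; omega) (by simp; omega) h1
      omega
    calc law d k hkd (Ew k w m) ≤ law d k hkd {ω | ∀ x ∈ X, N x ⊆ (ω x).1} := by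
          refine measure_mono fun ω hω x hx => ?_
          obtain ⟨s, hs, rfl⟩ := Finset.mem_image.1 hx
          rw [hNs s (Finset.mem_range.1 hs)]
          exact hω.2 s (Finset.mem_range.1 hs)
      _ = ∏ x ∈ X, ENNReal.ofReal (pr (2 * d) k (N x).card) := law_requirements hkd X N
      _ = ∏ s ∈ range m, ENNReal.ofReal (pr (2 * d) k (N (xs w (s + 1))).card) := by
          rw [hX, Finset.prod_image]
          intro a ha b hb hab
          have ha' := Finset.mem_range.1 (Finset.mem_coe.1 ha)
          have hb' := Finset.mem_range.1 (Finset.mem_coe.1 hb)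
          have := hinj (by simp; omega) (by simp; omega) hab
          omega
      _ = ENNReal.ofReal (pr (2 * d) k 2) ^ m := by
          rw [Finset.prod_congr rfl fun s hs => by
            rw [hNs s (Finset.mem_range.1 hs), hcard s (Finset.mem_range.1 hs)]]
          rw [Finset.prod_const, Finset.card_range]
      _ ≤ _ := le_rfl
  · have : Ew k w m = ∅ := by
      ext ω
      simp only [Set.mem_empty_iff_false, iff_false]
      exact fun h => hinj h.1
    rw [this, measure_empty]
    exact zero_le

/-- extension of a finite word of directions by a fixed direction -/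
def extd (u0 : Dir d) {n : ℕ} (w : Fin n → Dir d) (t : ℕ) : Dir d :=
  if ht : t < n then w ⟨t, ht⟩ else u0

theorem inf_imp (u0 : Dir d) {ω : Config d k}
    (hω : ((bng ω).connectedComponentMk 0).supp.Infinite) (m : ℕ) :
    ∃ w : Fin (m + 1) → Dir d, ω ∈ Ew k (extd u0 w) m := by
  classical
  -- a vertex of the component far away
  have hball : (Set.Icc (fun _ => -((m : ℤ) + 1)) (fun _ => ((m : ℤ) + 1)) :
      Set (Fin d → ℤ)).Finite := Set.finite_Icc _ _
  obtain ⟨y, hy, hyb⟩ := hω.exists_notMem_finite hball
  rw [SimpleGraph.ConnectedComponent.mem_supp_iff] at hy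
  have hr : (bng ω).Reachable 0 y := (SimpleGraph.ConnectedComponent.exact hy).symm
  obtain ⟨p, hp⟩ := hr.exists_isPath
  have hcoord : ∀ t ≤ p.length, ∀ i, |p.getVert t i| ≤ t := by
    intro t
    induction t with
    | zero => intro _ i; simp
    | succ t ih =>
      intro ht i
      have h1 := ih (by omega) i
      obtain ⟨u, hu, -, -⟩ := p.adj_getVert_succ (show t < p.length by omega)
      rw [hu]
      have h2 : |vec u i| ≤ 1 := by
        unfold vec
        by_cases hi : i = u.1
        · subst hi; rw [Pi.single_eq_same]; split_ifs <;> simp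
        · rw [Pi.single_eq_of_ne hi]; simp
      calc |(p.getVert t + vec u) i| = |p.getVert t i + vec u i| := rfl
        _ ≤ |p.getVert t i| + |vec u i| := abs_add_le _ _
        _ ≤ ((t + 1 : ℕ) : ℤ) := by push_cast; linarith
  have hlen : m + 1 < p.length := by
    by_contra hcon
    push Not at hcon
    apply hyb
    have h3 := hcoord p.length le_rfl
    rw [p.getVert_length] at h3
    have h4 : ∀ i, |y i| ≤ (m : ℤ) + 1 := fun i => (h3 i).trans (by exact_mod_cast hcon)
    exact ⟨fun i => (abs_le.1 (h4 i)).1, fun i => (abs_le.1 (h4 i)).2⟩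
  have hdir : ∀ t : Fin (m + 1), ∃ u : Dir d, p.getVert (t + 1) = p.getVert t + vec u ∧
      u ∈ (ω (p.getVert t)).1 ∧ opp u ∈ (ω (p.getVert (t + 1))).1 := fun t =>
    p.adj_getVert_succ (show (t : ℕ) < p.length by have := t.2; omega)
  choose w hw1 hw2 hw3 using hdir
  have hxs : ∀ t ≤ m + 1, xs (extd u0 w) t = p.getVert t := by
    intro t
    induction t with
    | zero => intro _; unfold xs; simp
    | succ t ih =>
      intro ht
      rw [xs_succ, ih (by omega)]
      unfold extd
      rw [dif_pos (by omega : t < m + 1)]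
      exact (hw1 ⟨t, by omega⟩).symm
  refine ⟨w, ?_, ?_⟩
  · intro a ha b hb hab
    rw [hxs a ha, hxs b hb] at hab
    exact hp.getVert_injOn (by simp at ha ⊢; omega) (by simp at hb ⊢; omega) hab
  · intro s hs
    rw [hxs (s + 1) (by omega)]
    unfold rq
    intro v hv
    rw [Finset.mem_insert, Finset.mem_singleton] at hv
    rcases hv with rfl | rfl
    · unfold extd
      rw [dif_pos (by omega : s < m + 1)]
      exact hw3 ⟨s, by omega⟩
    · unfold extd
      rw [dif_pos (by omega : s + 1 < m + 1)]
      exact hw2 ⟨s + 1, by omega⟩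

theorem theta_zero (hd : 1 ≤ d) (hkd : k ≤ 2 * d) (hk : (k : ℝ) * (k - 1) < 2 * d - 1) :
    theta d k hkd = 0 := by
  have hd' : (1 : ℝ) ≤ d := by exact_mod_cast hd
  set q := pr (2 * d) k 2 with hq
  have hq0 : 0 ≤ q := by
    rw [hq, pr_two]
    push_cast
    rcases Nat.eq_zero_or_pos k with h0 | h0
    · rw [h0]; simp
    · have : (1 : ℝ) ≤ k := by exact_mod_cast h0
      exact mul_nonneg (by positivity) (div_nonneg (by linarith) (by linarith))
  have hlt : (2 * (d : ℝ)) * q < 1 := by
    rw [hq, pr_two]
    push_cast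
    have h1 : 2 * (d : ℝ) * ((k : ℝ) / (2 * d) * ((k - 1) / (2 * d - 1))) =
        (k : ℝ) * (k - 1) / (2 * d - 1) := by
      field_simp
    rw [h1, div_lt_one (by linarith)]
    exact hk
  have hbound : ∀ m : ℕ, theta d k hkd ≤ ENNReal.ofReal ((2 * (d : ℝ)) * ((2 * (d : ℝ)) * q) ^ m) := by
    intro m
    have hsub : {ω : Config d k | ((bng ω).connectedComponentMk 0).supp.Infinite} ⊆
        ⋃ w : Fin (m + 1) → Dir d, Ew k (extd (⟨0, hd⟩, true) w) m := by
      intro ω hω
      exact Set.mem_iUnion.2 (inf_imp (⟨0, hd⟩, true) hω m)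
    calc theta d k hkd ≤ law d k hkd (⋃ w : Fin (m + 1) → Dir d,
          Ew k (extd (⟨0, hd⟩, true) w) m) := measure_mono hsub
      _ ≤ ∑ w : Fin (m + 1) → Dir d, law d k hkd (Ew k (extd (⟨0, hd⟩, true) w) m) :=
          measure_iUnion_fintype_le _ _
      _ ≤ ∑ w : Fin (m + 1) → Dir d, ENNReal.ofReal q ^ m :=
          Finset.sum_le_sum fun w _ => prob_Ew hkd _ m
      _ = ENNReal.ofReal ((2 * (d : ℝ)) * ((2 * (d : ℝ)) * q) ^ m) := by
          rw [Finset.sum_const, Finset.card_univ, Fintype.card_fun, Fintype.card_fin,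
            Fintype.card_prod, Fintype.card_fin, Fintype.card_bool, nsmul_eq_mul,
            ← ENNReal.ofReal_natCast, ← ENNReal.ofReal_pow hq0, ← ENNReal.ofReal_mul (by positivity)]
          congr 1
          push_cast
          ring
  have hlim : Tendsto (fun m : ℕ => ENNReal.ofReal ((2 * (d : ℝ)) * ((2 * (d : ℝ)) * q) ^ m)) atTop
      (𝓝 0) := by
    rw [← ENNReal.ofReal_zero]
    refine ENNReal.tendsto_ofReal ?_
    have := (tendsto_pow_atTop_nhds_zero_of_lt_one (by positivity) hlt).const_mul (2 * (d : ℝ))
    simpa using this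
  exact le_antisymm (ge_of_tendsto' hlim hbound) zero_le

theorem theta_full (hd : 1 ≤ d) : 0 < theta d (2 * d) le_rfl := by
  have h1 : {ω : Config d (2 * d) | ((bng ω).connectedComponentMk 0).supp.Infinite} = Set.univ := by
    refine Set.eq_univ_of_forall fun ω => ?_
    have hall : ∀ x (u : Dir d), u ∈ (ω x).1 := by
      intro x u
      have : (ω x).1 = Finset.univ := by
        rw [← Finset.card_eq_iff_eq_univ, (ω x).2, Fintype.card_prod, Fintype.card_fin,
          Fintype.card_bool]
        ring
      rw [this]; exact Finset.mem_univ _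
    set u : Dir d := (⟨0, hd⟩, true) with hu
    have hr : ∀ n : ℕ, (bng ω).Reachable 0 ((n : ℤ) • vec u) := by
      intro n
      induction n with
      | zero => simp
      | succ n ih =>
        refine ih.trans (SimpleGraph.Adj.reachable ⟨u, ?_, hall _ _, hall _ _⟩)
        push_cast
        rw [add_smul, one_smul]
    show ((bng ω).connectedComponentMk 0).supp.Infinite
    refine Set.infinite_of_injective_forall_mem (f := fun n : ℕ => (n : ℤ) • vec u) ?_ ?_
    · intro a b hab
      have h2 := congrFun hab ⟨0, hd⟩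
      simp [vec, hu] at h2
      exact h2
    · intro n
      rw [SimpleGraph.ConnectedComponent.mem_supp_iff]
      exact SimpleGraph.ConnectedComponent.sound (hr n).symm
  unfold theta
  rw [h1, measure_univ]
  exact one_pos

end

end Pool.Agent.X136.BN
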