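import Pool.Agent.X136.BN.Prob

set_option autoImplicit false

/-!
# Open oriented paths
-/

namespace Pool.Agent.X136.BN

open Finset MeasureTheory ProbabilityTheory

/-! ### inequalities for the inclusion probabilities -/

theorem pr_one (N k : ℕ) : pr N k 1 = (k : ℝ) / N := by
  unfold pr; simp

theorem pr_two (N k : ℕ) : pr N k 2 = (k : ℝ) / N * ((k - 1) / (N - 1)) := by
  unfold pr
  rw [Finset.prod_range_succ, Finset.prod_range_succ, Finset.prod_range_zero]
  simp

theorem pr_succ (N k j : ℕ) : pr N k (j + 1) = pr N k j * ((k - j) / (N - j)) := by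
  unfold pr; rw [Finset.prod_range_succ]

theorem pr_two_pos {N k : ℕ} (hk : 2 ≤ k) (hN : 4 ≤ N) : 0 < pr N k 2 := by
  have h1 : (2 : ℝ) ≤ k := by exact_mod_cast hk
  have h2 : (4 : ℝ) ≤ N := by exact_mod_cast hN
  rw [pr_two]
  have : (0 : ℝ) < k / N := by positivity
  have : (0 : ℝ) < (k - 1) / (N - 1) := div_pos (by linarith) (by linarith)
  positivity

theorem pr_two_le_one {N k : ℕ} (hk : 2 ≤ k) (hN : 4 ≤ N) (hkN : k ≤ N) : pr N k 2 ≤ 1 := by
  have h1 : (2 : ℝ) ≤ k := by exact_mod_cast hk
  have h2 : (4 : ℝ) ≤ N := by exact_mod_cast hN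
  have h3 : (k : ℝ) ≤ N := by exact_mod_cast hkN
  rw [pr_two]
  have a1 : (k : ℝ) / N ≤ 1 := by rw [div_le_one (by linarith)]; exact h3
  have a2 : ((k : ℝ) - 1) / (N - 1) ≤ 1 := by rw [div_le_one (by linarith)]; linarith
  have a3 : 0 ≤ ((k : ℝ) - 1) / (N - 1) := div_nonneg (by linarith) (by linarith)
  exact mul_le_one₀ a1 a3 a2

theorem ratio_le {N k i j : ℕ} (hij : i ≤ j) (hjN : j < N) (hkN : k ≤ N) :
    ((k : ℝ) - j) / (N - j) ≤ (k - i) / (N - i) := by
  have h1 : (i : ℝ) ≤ j := by exact_mod_cast hij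
  have h2 : (j : ℝ) < N := by exact_mod_cast hjN
  have h3 : (k : ℝ) ≤ N := by exact_mod_cast hkN
  rw [div_le_div_iff₀ (by linarith) (by linarith)]
  nlinarith

theorem pr_three_sq_le {N k : ℕ} (hk : 2 ≤ k) (hN : 4 ≤ N) (hkN : k ≤ N) :
    (pr N k 3) ^ 2 ≤ (pr N k 2) ^ 3 := by
  have h1 : (2 : ℝ) ≤ k := by exact_mod_cast hk
  have h2 : (4 : ℝ) ≤ N := by exact_mod_cast hN
  have e : pr N k 3 = pr N k 2 * (((k : ℝ) - (2 : ℕ)) / (N - (2 : ℕ))) := pr_succ N k 2
  have hq := pr_two_pos hk hN
  have r1 : ((k : ℝ) - (2 : ℕ)) / (N - (2 : ℕ)) ≤ (k - (1 : ℕ)) / (N - (1 : ℕ)) :=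
    ratio_le (by norm_num) (by omega) hkN
  have r2 : ((k : ℝ) - (2 : ℕ)) / (N - (2 : ℕ)) ≤ (k - (0 : ℕ)) / (N - (0 : ℕ)) :=
    ratio_le (by norm_num) (by omega) hkN
  have r0 : 0 ≤ ((k : ℝ) - (2 : ℕ)) / (N - (2 : ℕ)) :=
    div_nonneg (by push_cast; linarith) (by push_cast; linarith)
  have r3 : (((k : ℝ) - (2 : ℕ)) / (N - (2 : ℕ))) ^ 2 ≤ pr N k 2 := by
    rw [pr_two, sq]
    have a1 : ((k : ℝ) - (0 : ℕ)) / (N - (0 : ℕ)) = k / N := by simp
    have a2 : ((k : ℝ) - (1 : ℕ)) / (N - (1 : ℕ)) = (k - 1) / (N - 1) := by simp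
    rw [a1] at r2
    rw [a2] at r1
    exact mul_le_mul r2 r1 r0 (by positivity)
  rw [e, mul_pow]
  have : (pr N k 2) ^ 3 = (pr N k 2) ^ 2 * pr N k 2 := by ring
  rw [this]
  exact mul_le_mul_of_nonneg_left r3 (sq_nonneg _)

theorem pr_four_le {N k : ℕ} (hk : 2 ≤ k) (hN : 4 ≤ N) (hkN : k ≤ N) :
    pr N k 4 ≤ (pr N k 2) ^ 2 := by
  have h1 : (2 : ℝ) ≤ k := by exact_mod_cast hk
  have h2 : (4 : ℝ) ≤ N := by exact_mod_cast hN
  have hq := pr_two_pos hk hN
  rcases Nat.lt_or_ge k 4 with hk4 | hk4
  · rw [pr_eq_zero hk4]; positivity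
  · have h4 : (4 : ℝ) ≤ k := by exact_mod_cast hk4
    have e : pr N k 4 = pr N k 2 * (((k : ℝ) - (2 : ℕ)) / (N - (2 : ℕ))) *
        (((k : ℝ) - (3 : ℕ)) / (N - (3 : ℕ))) := by
      rw [← pr_succ N k 2, ← pr_succ N k 3]
    have r2 : ((k : ℝ) - (2 : ℕ)) / (N - (2 : ℕ)) ≤ (k - (0 : ℕ)) / (N - (0 : ℕ)) :=
      ratio_le (by norm_num) (by omega) hkN
    have r1 : ((k : ℝ) - (3 : ℕ)) / (N - (3 : ℕ)) ≤ (k - (1 : ℕ)) / (N - (1 : ℕ)) :=
      ratio_le (by norm_num) (by omega) hkN
    have r0 : 0 ≤ ((k : ℝ) - (3 : ℕ)) / (N - (3 : ℕ)) :=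
      div_nonneg (by push_cast; linarith) (by
        have : 4 ≤ N := hN
        push_cast; linarith)
    have a1 : ((k : ℝ) - (0 : ℕ)) / (N - (0 : ℕ)) = k / N := by simp
    have a2 : ((k : ℝ) - (1 : ℕ)) / (N - (1 : ℕ)) = (k - 1) / (N - 1) := by simp
    rw [a1] at r2
    rw [a2] at r1
    rw [e, sq, mul_assoc]
    refine mul_le_mul_of_nonneg_left ?_ hq.le
    rw [pr_two]
    exact mul_le_mul r2 r1 r0 (by positivity)

/-! ### paths -/

section

variable {d h : ℕ} (hd : 6 * h ≤ d) (hh : 0 < h)

/-- the position at time `t` -/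
def pos (u : ℕ → Al h) (t : ℕ) : Fin d → ℤ := ∑ j ∈ range t, ste hd j (u j)

/-- the level of a vertex -/
def lev (x : Fin d → ℤ) : ℤ := ∑ i, x i

theorem lev_pos (u : ℕ → Al h) (t : ℕ) : lev (pos hd u t) = t := by
  unfold lev pos
  simp only [Finset.sum_apply]
  rw [Finset.sum_comm]
  have : ∀ j, ∑ i, ste hd j (u j) i = 1 := by
    intro j
    unfold ste
    rw [Finset.sum_pi_single']
    simp
  simp [this]

/-- the direction of the step at time `t` -/
def out (u : ℕ → Al h) (t : ℕ) : Dir d := (idx hd t (u t), true)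

/-- the direction of the previous step, reversed (arbitrary at time `0`) -/
def inn (u : ℕ → Al h) : ℕ → Dir d
  | 0 => (idx hd 2 (true, ⟨0, hh⟩), false)
  | t + 1 => (idx hd t (u t), false)

/-- the directions which have to be chosen -/
def need (u : ℕ → Al h) (t : ℕ) : Finset (Dir d) := {inn hd hh u t, out hd u t}

theorem inn_snd (u : ℕ → Al h) (t : ℕ) : (inn hd hh u t).2 = false := by
  cases t <;> rfl

theorem need_card (u : ℕ → Al h) (t : ℕ) : (need hd hh u t).card = 2 := by
  unfold need
  rw [Finset.card_pair]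
  intro he
  have := congrArg Prod.snd he
  rw [inn_snd] at this
  exact absurd this (by simp [out])

/-- the path is open up to time `n` -/
def Av {k : ℕ} (u : ℕ → Al h) (n : ℕ) : Set (Config d k) :=
  {ω | ∀ t < n, need hd hh u t ⊆ (ω (pos hd u t)).1}

theorem need_congr {u u' : ℕ → Al h} {n : ℕ} (he : ∀ t < n, u t = u' t) {t : ℕ} (ht : t < n) :
    need hd hh u t = need hd hh u' t := by
  unfold need out
  rw [he t ht]
  congr 1
  cases t with
  | zero => rfl
  | succ t =>
    show ((idx hd t (u t), false) : Dir d) = (idx hd t (u' t), false)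
    rw [he t (by omega)]

theorem pos_congr {u u' : ℕ → Al h} {n : ℕ} (he : ∀ t < n, u t = u' t) {t : ℕ} (ht : t ≤ n) :
    pos hd u t = pos hd u' t := by
  unfold pos
  refine Finset.sum_congr rfl fun j hj => ?_
  rw [he j (lt_of_lt_of_le (Finset.mem_range.1 hj) ht)]

theorem Av_adj {k : ℕ} {u : ℕ → Al h} {n : ℕ} {ω : Config d k} (hω : ω ∈ Av hd hh u n) {t : ℕ}
    (ht : t + 1 < n) : (bng ω).Adj (pos hd u t) (pos hd u (t + 1)) := by
  refine ⟨out hd u t, ?_, ?_, ?_⟩
  · unfold pos
    rw [Finset.sum_range_succ]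
    congr 1
  · refine hω t (by omega) ?_
    unfold need; simp
  · refine hω (t + 1) ht ?_
    unfold need
    rw [Finset.mem_insert]
    left
    rfl

theorem Av_reachable {k : ℕ} {u : ℕ → Al h} {n : ℕ} {ω : Config d k} (hω : ω ∈ Av hd hh u n)
    {t : ℕ} (ht : t < n) : (bng ω).Reachable 0 (pos hd u t) := by
  induction t with
  | zero =>
    have : pos hd u 0 = 0 := by unfold pos; simp
    rw [this]
  | succ t ih => exact (ih (by omega)).trans (Av_adj hd hh hω ht).reachable

/-- the requirement at a vertex, for two paths -/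
noncomputable def req (u u' : ℕ → Al h) (x : Fin d → ℤ) : Finset (Dir d) :=
  (if x = pos hd u (lev x).toNat then need hd hh u (lev x).toNat else ∅) ∪
    (if x = pos hd u' (lev x).toNat then need hd hh u' (lev x).toNat else ∅)

/-- the vertices of two paths -/
def verts (u u' : ℕ → Al h) (n : ℕ) : Finset (Fin d → ℤ) :=
  (range n).biUnion fun t => {pos hd u t, pos hd u' t}

theorem lev_toNat (u : ℕ → Al h) (t : ℕ) : (lev (pos hd u t)).toNat = t := by
  rw [lev_pos]; simp

theorem Av_inter {k : ℕ} (u u' : ℕ → Al h) (n : ℕ) :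
    (Av hd hh u n ∩ Av hd hh u' n : Set (Config d k)) =
      {ω | ∀ x ∈ verts hd u u' n, req hd hh u u' x ⊆ (ω x).1} := by
  ext ω
  constructor
  · rintro ⟨h1, h2⟩ x hx
    unfold verts at hx
    rw [Finset.mem_biUnion] at hx
    obtain ⟨t, ht, hx⟩ := hx
    have ht' := Finset.mem_range.1 ht
    have hl : (lev x).toNat = t := by
      rw [Finset.mem_insert, Finset.mem_singleton] at hx
      rcases hx with rfl | rfl <;> exact lev_toNat hd _ t
    unfold req
    rw [hl]
    refine Finset.union_subset ?_ ?_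
    · split_ifs with h3
      · rw [h3]; exact h1 t ht'
      · exact Finset.empty_subset _
    · split_ifs with h3
      · rw [h3]; exact h2 t ht'
      · exact Finset.empty_subset _
  · intro hω
    constructor
    · intro t ht
      have h1 := hω (pos hd u t) (by
        unfold verts
        exact Finset.mem_biUnion.2 ⟨t, Finset.mem_range.2 ht, by simp⟩)
      refine subset_trans ?_ h1
      unfold req
      rw [lev_toNat, if_pos rfl]
      exact Finset.subset_union_left
    · intro t ht
      have h1 := hω (pos hd u' t) (by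
        unfold verts
        exact Finset.mem_biUnion.2 ⟨t, Finset.mem_range.2 ht, by simp⟩)
      refine subset_trans ?_ h1
      unfold req
      rw [lev_toNat, if_pos (rfl : pos hd u' t = pos hd u' t)]
      exact Finset.subset_union_right

theorem prod_verts (u u' : ℕ → Al h) (n : ℕ) (F : (Fin d → ℤ) → ENNReal) :
    ∏ x ∈ verts hd u u' n, F x = ∏ t ∈ range n, ∏ x ∈ {pos hd u t, pos hd u' t}, F x := by
  unfold verts
  rw [Finset.prod_biUnion]
  intro t _ t' _ htt
  rw [Function.onFun, Finset.disjoint_left]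
  intro x hx hx'
  apply htt
  have e1 : lev x = t := by
    rw [Finset.mem_insert, Finset.mem_singleton] at hx
    rcases hx with rfl | rfl <;> exact lev_pos hd _ t
  have e2 : lev x = t' := by
    rw [Finset.mem_insert, Finset.mem_singleton] at hx'
    rcases hx' with rfl | rfl <;> exact lev_pos hd _ t'
  exact_mod_cast e1.symm.trans e2

/-- shared edge at time `t` -/
def oo (u u' : ℕ → Al h) (t : ℕ) : ℕ := if pos hd u t = pos hd u' t ∧ u t = u' t then 1 else 0

/-- shared previous edge -/
def ii (u u' : ℕ → Al h) : ℕ → ℕ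
  | 0 => 1
  | t + 1 => oo hd u u' t

theorem level_factor {k : ℕ} (hk : 2 ≤ k) (hkd : k ≤ 2 * d) (u u' : ℕ → Al h) (t : ℕ) {G : ℝ}
    (hG : 0 ≤ G) (hG2 : G ^ 2 = 1 / pr (2 * d) k 2) :
    ∏ x ∈ {pos hd u t, pos hd u' t}, ENNReal.ofReal (pr (2 * d) k (req hd hh u u' x).card) ≤
      ENNReal.ofReal ((pr (2 * d) k 2) ^ 2 * G ^ (ii hd u u' t + oo hd u u' t)) := by
  have hN : 4 ≤ 2 * d := by omega
  set q := pr (2 * d) k 2 with hq'
  have hq : 0 < q := pr_two_pos hk hN
  have hq1 : q ≤ 1 := pr_two_le_one hk hN hkd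
  have hG1 : 1 ≤ G := by
    have : 1 ≤ G ^ 2 := by rw [hG2, le_div_iff₀ hq]; linarith
    nlinarith
  by_cases hp : pos hd u t = pos hd u' t
  · have hset : ({pos hd u t, pos hd u' t} : Finset (Fin d → ℤ)) = {pos hd u t} := by
      rw [← hp]; simp
    rw [hset, Finset.prod_singleton]
    refine ENNReal.ofReal_le_ofReal ?_
    have hreq : req hd hh u u' (pos hd u t) = need hd hh u t ∪ need hd hh u' t := by
      unfold req
      rw [lev_toNat, if_pos rfl, if_pos hp]
    rw [hreq]
    -- the cases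
    have hio : inn hd hh u t ≠ out hd u' t := by
      intro he
      have := congrArg Prod.snd he
      rw [inn_snd] at this
      exact absurd this (by simp [out])
    have hio' : inn hd hh u' t ≠ out hd u t := by
      intro he
      have := congrArg Prod.snd he
      rw [inn_snd] at this
      exact absurd this (by simp [out])
    have hio2 : inn hd hh u t ≠ out hd u t := by
      intro he
      have := congrArg Prod.snd he
      rw [inn_snd] at this
      exact absurd this (by simp [out])
    have hio3 : inn hd hh u' t ≠ out hd u' t := by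
      intro he
      have := congrArg Prod.snd he
      rw [inn_snd] at this
      exact absurd this (by simp [out])
    have hoo : out hd u t = out hd u' t → oo hd u u' t = 1 := by
      intro he
      have h1 := congrArg Prod.fst he
      have h2 := ((idx_eq_iff hd t t (u t) (u' t)).1 h1).2
      unfold oo
      rw [if_pos ⟨hp, h2⟩]
    have hii : inn hd hh u t = inn hd hh u' t → ii hd u u' t = 1 := by
      intro he
      cases t with
      | zero => rfl
      | succ t =>
        have h1 := congrArg Prod.fst he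
        have h2 := ((idx_eq_iff hd t t (u t) (u' t)).1 h1).2
        have h3 : pos hd u t = pos hd u' t := by
          have h4 := hp
          unfold pos at h4
          rw [Finset.sum_range_succ, Finset.sum_range_succ, h2] at h4
          exact add_right_cancel h4
        show oo hd u u' t = 1
        unfold oo
        rw [if_pos ⟨h3, h2⟩]
    by_cases hI : inn hd hh u t = inn hd hh u' t <;> by_cases hO : out hd u t = out hd u' t
    · have hcard : (need hd hh u t ∪ need hd hh u' t).card = 2 := by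
        have : need hd hh u t = need hd hh u' t := by unfold need; rw [hI, hO]
        rw [this, Finset.union_self, need_card]
      rw [hcard, hii hI, hoo hO]
      have : q ^ 2 * G ^ (1 + 1) = q := by
        have e : G ^ (1 + 1) = G ^ 2 := by norm_num
        rw [e, hG2]; field_simp
      rw [this]
    · have hcard : (need hd hh u t ∪ need hd hh u' t).card = 3 := by
        have : need hd hh u t ∪ need hd hh u' t =
            {inn hd hh u' t, out hd u t, out hd u' t} := by
          unfold need; rw [hI]; ext x; simp <;> tauto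
        rw [this, Finset.card_insert_of_notMem, Finset.card_pair hO]
        simp only [Finset.mem_insert, Finset.mem_singleton, not_or]
        exact ⟨hio', hio3⟩
      rw [hcard, hii hI]
      have h3 := pr_three_sq_le hk hN hkd
      have h4 : pr (2 * d) k 3 ≤ q ^ 2 * G := by
        apply le_of_sq_le_sq _ (by positivity)
        calc pr (2 * d) k 3 ^ 2 ≤ q ^ 3 := h3
          _ = (q ^ 2 * G) ^ 2 := by rw [mul_pow, hG2]; field_simp
      refine h4.trans (mul_le_mul_of_nonneg_left ?_ (by positivity))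
      calc G = G ^ 1 := (pow_one G).symm
        _ ≤ G ^ (1 + oo hd u u' t) := pow_le_pow_right₀ hG1 (by omega)
    · have hcard : (need hd hh u t ∪ need hd hh u' t).card = 3 := by
        have : need hd hh u t ∪ need hd hh u' t =
            {inn hd hh u t, inn hd hh u' t, out hd u' t} := by
          unfold need; rw [hO]; ext x; simp <;> tauto
        rw [this, Finset.card_insert_of_notMem, Finset.card_pair hio3]
        simp only [Finset.mem_insert, Finset.mem_singleton, not_or]
        exact ⟨hI, hio⟩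
      rw [hcard, hoo hO]
      have h3 := pr_three_sq_le hk hN hkd
      have h4 : pr (2 * d) k 3 ≤ q ^ 2 * G := by
        apply le_of_sq_le_sq _ (by positivity)
        calc pr (2 * d) k 3 ^ 2 ≤ q ^ 3 := h3
          _ = (q ^ 2 * G) ^ 2 := by rw [mul_pow, hG2]; field_simp
      refine h4.trans (mul_le_mul_of_nonneg_left ?_ (by positivity))
      calc G = G ^ 1 := (pow_one G).symm
        _ ≤ G ^ (ii hd u u' t + 1) := pow_le_pow_right₀ hG1 (by omega)
    · have hcard : (need hd hh u t ∪ need hd hh u' t).card = 4 := by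
        rw [Finset.card_union_of_disjoint, need_card, need_card]
        unfold need
        rw [Finset.disjoint_left]
        intro x hx hx'
        rw [Finset.mem_insert, Finset.mem_singleton] at hx hx'
        rcases hx with rfl | rfl <;> rcases hx' with h1 | h1
        · exact hI h1
        · exact hio h1
        · exact hio' h1.symm
        · exact hO h1
      rw [hcard]
      refine (pr_four_le hk hN hkd).trans ?_
      have : (1 : ℝ) ≤ G ^ (ii hd u u' t + oo hd u u' t) := one_le_pow₀ hG1
      nlinarith [sq_nonneg q]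
  · rw [Finset.prod_pair hp]
    have h1 : req hd hh u u' (pos hd u t) = need hd hh u t := by
      unfold req
      rw [lev_toNat, if_pos rfl, if_neg hp, Finset.union_empty]
    have h2 : req hd hh u u' (pos hd u' t) = need hd hh u' t := by
      unfold req
      rw [lev_toNat, if_neg (fun h => hp h.symm), if_pos rfl, Finset.empty_union]
    rw [h1, h2, need_card, need_card, ← ENNReal.ofReal_mul hq.le]
    refine ENNReal.ofReal_le_ofReal ?_
    have : (1 : ℝ) ≤ G ^ (ii hd u u' t + oo hd u u' t) := one_le_pow₀ hG1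
    nlinarith [sq_nonneg q]

theorem prob_pair {k : ℕ} (hk : 2 ≤ k) (hkd : k ≤ 2 * d) (u u' : ℕ → Al h) (n : ℕ) {G : ℝ}
    (hG : 0 ≤ G) (hG2 : G ^ 2 = 1 / pr (2 * d) k 2) :
    (law d k hkd).real (Av hd hh u n ∩ Av hd hh u' n) ≤
      (pr (2 * d) k 2) ^ (2 * n) * G * (1 / pr (2 * d) k 2) ^ (∑ t ∈ range n, oo hd u u' t) := by
  have hN : 4 ≤ 2 * d := by omega
  have hq : 0 < pr (2 * d) k 2 := pr_two_pos hk hN
  have hq1 : pr (2 * d) k 2 ≤ 1 := pr_two_le_one hk hN hkd
  have hG1 : 1 ≤ G := by
    have : 1 ≤ G ^ 2 := by rw [hG2, le_div_iff₀ hq]; linarith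
    nlinarith
  set q := pr (2 * d) k 2 with hq'
  have h1 : law d k hkd (Av hd hh u n ∩ Av hd hh u' n) ≤
      ENNReal.ofReal (∏ t ∈ range n, (q ^ 2 * G ^ (ii hd u u' t + oo hd u u' t))) := by
    rw [Av_inter, law_requirements, prod_verts]
    rw [ENNReal.ofReal_prod_of_nonneg fun t _ => by positivity]
    exact Finset.prod_le_prod' fun t _ => level_factor hd hh hk hkd u u' t hG hG2
  have h2 : ∏ t ∈ range n, (q ^ 2 * G ^ (ii hd u u' t + oo hd u u' t)) ≤
      q ^ (2 * n) * G * (1 / q) ^ (∑ t ∈ range n, oo hd u u' t) := by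
    rw [Finset.prod_mul_distrib, Finset.prod_const, Finset.card_range, ← pow_mul,
      Finset.prod_pow_eq_pow_sum, mul_assoc]
    refine mul_le_mul_of_nonneg_left ?_ (by positivity)
    have h3 : ∑ t ∈ range n, (ii hd u u' t + oo hd u u' t) ≤
        1 + 2 * ∑ t ∈ range n, oo hd u u' t := by
      rw [Finset.sum_add_distrib]
      have : ∑ t ∈ range n, ii hd u u' t ≤ 1 + ∑ t ∈ range n, oo hd u u' t := by
        cases n with
        | zero => simp
        | succ n =>
          rw [Finset.sum_range_succ', Finset.sum_range_succ]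
          show ∑ t ∈ range n, oo hd u u' t + 1 ≤ _
          omega
      omega
    calc G ^ ∑ t ∈ range n, (ii hd u u' t + oo hd u u' t)
        ≤ G ^ (1 + 2 * ∑ t ∈ range n, oo hd u u' t) := pow_le_pow_right₀ hG1 h3
      _ = G * (1 / q) ^ (∑ t ∈ range n, oo hd u u' t) := by
          rw [pow_add, pow_one, pow_mul, hG2]
  have h4 : (0 : ℝ) ≤ q ^ (2 * n) * G * (1 / q) ^ (∑ t ∈ range n, oo hd u u' t) := by positivity
  exact ENNReal.toReal_le_of_le_ofReal h4 (h1.trans (ENNReal.ofReal_le_ofReal h2))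

theorem prob_one {k : ℕ} (hk : 2 ≤ k) (hkd : k ≤ 2 * d) (u : ℕ → Al h) (n : ℕ) :
    (law d k hkd).real (Av hd hh u n) = (pr (2 * d) k 2) ^ n := by
  have hN : 4 ≤ 2 * d := by omega
  have hq : 0 < pr (2 * d) k 2 := pr_two_pos hk hN
  have h1 : law d k hkd (Av hd hh u n) = ENNReal.ofReal ((pr (2 * d) k 2) ^ n) := by
    have e := Av_inter hd hh (k := k) u u n
    rw [Set.inter_self] at e
    rw [e, law_requirements, prod_verts, ENNReal.ofReal_pow hq.le]
    have : ∀ t ∈ range n, ∏ x ∈ {pos hd u t, pos hd u t},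
        ENNReal.ofReal (pr (2 * d) k (req hd hh u u x).card) =
        ENNReal.ofReal (pr (2 * d) k 2) := by
      intro t _
      rw [Finset.pair_eq_singleton, Finset.prod_singleton]
      unfold req
      rw [lev_toNat, if_pos rfl, Finset.union_self, need_card]
    rw [Finset.prod_congr rfl this, Finset.prod_const, Finset.card_range]
  unfold Measure.real
  rw [h1, ENNReal.toReal_ofReal (by positivity)]

end

end Pool.Agent.X136.BN
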