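import Pool.Agent.X136.BN.Path

set_option autoImplicit false

/-!
# Percolation of the bidirectional neighbour graph
-/

namespace Pool.Agent.X136.BN

open Finset MeasureTheory ProbabilityTheory Filter Topology

section

variable {d h : ℕ} (hd : 6 * h ≤ d) (hh : 0 < h)

/-- extension of a finite word -/
def ext {n : ℕ} (w : Fin n → Al h) (t : ℕ) : Al h :=
  if ht : t < n then w ⟨t, ht⟩ else (true, ⟨0, hh⟩)

/-- prepend a letter -/
def consw (a : Al h) (u : ℕ → Al h) : ℕ → Al h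
  | 0 => a
  | t + 1 => u t

theorem ext_cons {n : ℕ} (a : Al h) (w : Fin n → Al h) :
    ext hh (Fin.cons a w : Fin (n + 1) → Al h) = consw a (ext hh w) := by
  funext t
  cases t with
  | zero =>
    unfold ext consw
    rw [dif_pos (Nat.succ_pos n)]
    rfl
  | succ t =>
    show ext hh (Fin.cons a w : Fin (n + 1) → Al h) (t + 1) = ext hh w t
    unfold ext
    by_cases ht : t < n
    · rw [dif_pos ht, dif_pos (by omega)]
      exact Fin.cons_succ (α := fun _ => Al h) a w ⟨t, ht⟩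
    · rw [dif_neg ht, dif_neg (by omega)]

/-- number of shared edges, started from the difference `D` at time `φ` -/
def shf (φ : ℕ) (D : Fin d → ℤ) (n : ℕ) (u u' : ℕ → Al h) : ℕ :=
  ∑ t ∈ range n, if D + ∑ j ∈ range t, (ste hd (φ + j) (u j) - ste hd (φ + j) (u' j)) = 0 ∧
    u t = u' t then 1 else 0

theorem shf_cons (φ : ℕ) (D : Fin d → ℤ) (n : ℕ) (a a' : Al h) (u u' : ℕ → Al h) :
    shf hd φ D (n + 1) (consw a u) (consw a' u') =
      (if D = 0 ∧ a = a' then 1 else 0) +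
        shf hd (φ + 1) (D + ste hd φ a - ste hd φ a') n u u' := by
  unfold shf
  rw [Finset.sum_range_succ', add_comm]
  congr 1
  · simp [consw]
  · refine Finset.sum_congr rfl fun t _ => ?_
    have e : D + ∑ j ∈ range (t + 1), (ste hd (φ + j) (consw a u j) -
        ste hd (φ + j) (consw a' u' j)) = D + ste hd φ a - ste hd φ a' +
        ∑ j ∈ range t, (ste hd (φ + 1 + j) (u j) - ste hd (φ + 1 + j) (u' j)) := by
      rw [Finset.sum_range_succ']
      have h1 : ∀ j, ste hd (φ + (j + 1)) (consw a u (j + 1)) -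
          ste hd (φ + (j + 1)) (consw a' u' (j + 1)) =
          ste hd (φ + 1 + j) (u j) - ste hd (φ + 1 + j) (u' j) := fun j => by
        have h2 : φ + (j + 1) = φ + 1 + j := by ring
        rw [h2]
        rfl
      rw [Finset.sum_congr rfl fun j _ => h1 j]
      show D + (∑ j ∈ range t, (ste hd (φ + 1 + j) (u j) - ste hd (φ + 1 + j) (u' j)) +
        (ste hd φ a - ste hd φ a')) = _
      abel
    rw [e]
    rfl

theorem shf_eq (n : ℕ) (u u' : ℕ → Al h) :
    shf hd 0 0 n u u' = ∑ t ∈ range n, oo hd u u' t := by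
  unfold shf oo
  refine Finset.sum_congr rfl fun t _ => ?_
  have e : (0 : Fin d → ℤ) + ∑ j ∈ range t, (ste hd (0 + j) (u j) - ste hd (0 + j) (u' j)) =
      pos hd u t - pos hd u' t := by
    unfold pos
    rw [Finset.sum_sub_distrib]
    simp
  rw [e]
  simp only [sub_eq_zero]

theorem sum_words (g : ℝ) (n : ℕ) : ∀ (φ : ℕ) (D : Fin d → ℤ),
    ∑ w : Fin n → Al h, ∑ w' : Fin n → Al h, g ^ shf hd φ D n (ext hh w) (ext hh w') =
      (2 * (h : ℝ)) ^ (2 * n) * GG hd g n φ D := by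
  have hh' : (0 : ℝ) < 2 * h := by positivity
  induction n with
  | zero =>
    intro φ D
    simp [shf, GG]
  | succ n ih =>
    intro φ D
    have h1 : ∀ F : (Fin (n + 1) → Al h) → ℝ, ∑ w, F w = ∑ a : Al h, ∑ w : Fin n → Al h,
        F (Fin.cons a w) := by
      intro F
      rw [← (Fin.consEquiv fun _ : Fin (n + 1) => Al h).sum_comp, Fintype.sum_prod_type]
      rfl
    rw [h1]
    simp only [h1, ext_cons, shf_cons, pow_add]
    have h2 : ∀ a a' : Al h, ∑ w : Fin n → Al h, ∑ w' : Fin n → Al h,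
        (g ^ (if D = 0 ∧ a = a' then 1 else 0) *
          g ^ shf hd (φ + 1) (D + ste hd φ a - ste hd φ a') n (ext hh w) (ext hh w')) =
        (2 * (h : ℝ)) ^ (2 * n) * ((if D = 0 ∧ a = a' then g else 1) *
          GG hd g n (φ + 1) (D + ste hd φ a - ste hd φ a')) := by
      intro a a'
      simp only [← Finset.mul_sum]
      rw [ih]
      split_ifs <;> ring
    have h3 : ∀ a : Al h, ∑ w : Fin n → Al h, ∑ a' : Al h, ∑ w' : Fin n → Al h,
        (g ^ (if D = 0 ∧ a = a' then 1 else 0) *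
          g ^ shf hd (φ + 1) (D + ste hd φ a - ste hd φ a') n (ext hh w) (ext hh w')) =
        ∑ a' : Al h, (2 * (h : ℝ)) ^ (2 * n) * ((if D = 0 ∧ a = a' then g else 1) *
          GG hd g n (φ + 1) (D + ste hd φ a - ste hd φ a')) := by
      intro a
      rw [Finset.sum_comm]
      exact Finset.sum_congr rfl fun a' _ => h2 a a'
    rw [Finset.sum_congr rfl fun a _ => h3 a]
    simp only [← Finset.mul_sum]
    have h4 : GG hd g (n + 1) φ D = (∑ a : Al h, ∑ a' : Al h, (if D = 0 ∧ a = a' then g else 1) *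
      GG hd g n (φ + 1) (D + ste hd φ a - ste hd φ a')) / (2 * (h : ℝ)) ^ 2 := rfl
    rw [h4]
    have e : 2 * (n + 1) = 2 * n + 2 := by ring
    rw [e, pow_add]
    field_simp

/-- some path is open up to time `n` -/
def Un (k n : ℕ) : Set (Config d k) := ⋃ w : Fin n → Al h, Av hd hh (ext hh w) n

theorem measurable_Av {k : ℕ} (u : ℕ → Al h) (n : ℕ) :
    MeasurableSet (Av hd hh u n : Set (Config d k)) := by
  have e := Av_inter hd hh (k := k) u u n
  rw [Set.inter_self] at e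
  rw [e]
  exact measurable_requirements _ _

theorem measurable_Un (k n : ℕ) : MeasurableSet (Un hd hh k n) :=
  MeasurableSet.iUnion fun w => measurable_Av hd hh _ n

theorem Un_anti (k : ℕ) : Antitone (Un hd hh k) := by
  refine antitone_nat_of_succ_le fun n => ?_
  intro ω hω
  obtain ⟨w, hw⟩ := Set.mem_iUnion.1 hω
  refine Set.mem_iUnion.2 ⟨fun i => w (Fin.castSucc i), ?_⟩
  have he : ∀ t < n, ext hh (fun i => w (Fin.castSucc i)) t = ext hh w t := by
    intro t ht
    unfold ext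
    rw [dif_pos ht, dif_pos (by omega)]
    rfl
  intro t ht
  rw [need_congr hd hh he ht, pos_congr hd he ht.le]
  exact hw t (by omega)

theorem prob_Un {k : ℕ} (hk : 2 ≤ k) (hkd : k ≤ 2 * d)
    (hcond : (1 / pr (2 * d) k 2) / (2 * h) * RR ≤ 1 / 2) :
    ∃ c : ℝ, 0 < c ∧ ∀ n, c ≤ (law d k hkd).real (Un hd hh k n) := by
  have hN : 4 ≤ 2 * d := by omega
  set q := pr (2 * d) k 2 with hq'
  have hq : 0 < q := pr_two_pos hk hN
  have hq1 : q ≤ 1 := pr_two_le_one hk hN hkd
  have hg1 : 1 ≤ 1 / q := by rw [le_div_iff₀ hq]; linarith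
  set G := Real.sqrt (1 / q) with hG
  have hG2 : G ^ 2 = 1 / q := Real.sq_sqrt (by positivity)
  have hGp : 0 < G := Real.sqrt_pos.2 (by positivity)
  refine ⟨1 / (2 * G), by positivity, fun n => ?_⟩
  have hh' : (0 : ℝ) < 2 * h := by positivity
  have hsm := second_moment (law d k hkd) (fun w : Fin n → Al h => Av hd hh (ext hh w) n)
    (fun w => measurable_Av hd hh _ n)
  have hS1 : ∑ w : Fin n → Al h, (law d k hkd).real (Av hd hh (ext hh w) n) =
      (2 * (h : ℝ)) ^ n * q ^ n := by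
    rw [Finset.sum_congr rfl fun w _ => prob_one hd hh hk hkd (ext hh w) n, Finset.sum_const,
      Finset.card_univ, Fintype.card_fun, Fintype.card_fin, nsmul_eq_mul]
    push_cast
    rw [card_Al]
  have hS2 : ∑ w : Fin n → Al h, ∑ w' : Fin n → Al h,
      (law d k hkd).real (Av hd hh (ext hh w) n ∩ Av hd hh (ext hh w') n) ≤
      q ^ (2 * n) * G * ((2 * (h : ℝ)) ^ (2 * n) * 2) := by
    calc ∑ w : Fin n → Al h, ∑ w' : Fin n → Al h,
        (law d k hkd).real (Av hd hh (ext hh w) n ∩ Av hd hh (ext hh w') n)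
        ≤ ∑ w : Fin n → Al h, ∑ w' : Fin n → Al h,
          q ^ (2 * n) * G * (1 / q) ^ shf hd 0 0 n (ext hh w) (ext hh w') := by
          refine Finset.sum_le_sum fun w _ => Finset.sum_le_sum fun w' _ => ?_
          rw [shf_eq]
          exact prob_pair hd hh hk hkd _ _ n hGp.le hG2
      _ = q ^ (2 * n) * G * ((2 * (h : ℝ)) ^ (2 * n) * GG hd (1 / q) n 0 0) := by
          simp only [← Finset.mul_sum]
          rw [sum_words hd hh]
      _ ≤ q ^ (2 * n) * G * ((2 * (h : ℝ)) ^ (2 * n) * 2) := by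
          refine mul_le_mul_of_nonneg_left ?_ (by positivity)
          refine mul_le_mul_of_nonneg_left ?_ (by positivity)
          exact GG_zero_le hd hh hg1 hcond n 0
  rw [hS1] at hsm
  have hP0 : 0 ≤ (law d k hkd).real (Un hd hh k n) := measureReal_nonneg
  have h1 : ((2 * (h : ℝ)) ^ n * q ^ n) ^ 2 ≤ (law d k hkd).real (Un hd hh k n) *
      (q ^ (2 * n) * G * ((2 * (h : ℝ)) ^ (2 * n) * 2)) :=
    hsm.trans (mul_le_mul_of_nonneg_left hS2 hP0)
  have h2 : ((2 * (h : ℝ)) ^ n * q ^ n) ^ 2 = q ^ (2 * n) * (2 * (h : ℝ)) ^ (2 * n) := by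
    rw [mul_pow, ← pow_mul, ← pow_mul, mul_comm n 2]; ring
  rw [h2] at h1
  set Y := q ^ (2 * n) * (2 * (h : ℝ)) ^ (2 * n) with hY
  have hYp : 0 < Y := by positivity
  have h3 : q ^ (2 * n) * G * ((2 * (h : ℝ)) ^ (2 * n) * 2) = Y * (2 * G) := by rw [hY]; ring
  rw [h3] at h1
  rw [div_le_iff₀ (by positivity)]
  have h4 : Y * 1 ≤ Y * ((law d k hkd).real (Un hd hh k n) * (2 * G)) := by
    calc Y * 1 = Y := mul_one _
      _ ≤ (law d k hkd).real (Un hd hh k n) * (Y * (2 * G)) := h1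
      _ = _ := by ring
  exact le_of_mul_le_mul_left h4 hYp

theorem Un_infinite {k : ℕ} {ω : Config d k} (hω : ω ∈ ⋂ n, Un hd hh k n) :
    ((bng ω).connectedComponentMk 0).supp.Infinite := by
  have h1 : ∀ t : ℕ, ∃ x : Fin d → ℤ, lev x = t ∧ (bng ω).Reachable 0 x := by
    intro t
    have h2 := Set.mem_iInter.1 hω (t + 1)
    obtain ⟨w, hw⟩ := Set.mem_iUnion.1 h2
    exact ⟨pos hd (ext hh w) t, lev_pos hd _ t, Av_reachable hd hh hw (Nat.lt_succ_self t)⟩
  choose f hf1 hf2 using h1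
  refine Set.infinite_of_injective_forall_mem (f := f) ?_ ?_
  · intro a b hab
    have := (hf1 a).symm.trans ((congrArg lev hab).trans (hf1 b))
    exact_mod_cast this
  · intro t
    rw [SimpleGraph.ConnectedComponent.mem_supp_iff]
    exact SimpleGraph.ConnectedComponent.sound (hf2 t).symm

include hd hh in
theorem theta_pos {k : ℕ} (hk : 2 ≤ k) (hkd : k ≤ 2 * d)
    (hcond : (1 / pr (2 * d) k 2) / (2 * h) * RR ≤ 1 / 2) : 0 < theta d k hkd := by
  obtain ⟨c, hc, hU⟩ := prob_Un hd hh hk hkd hcond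
  have h1 : Tendsto (fun n => law d k hkd (Un hd hh k n)) atTop
      (𝓝 (law d k hkd (⋂ n, Un hd hh k n))) :=
    tendsto_measure_iInter_atTop (fun n => (measurable_Un hd hh k n).nullMeasurableSet)
      (Un_anti hd hh k) ⟨0, measure_ne_top _ _⟩
  have h2 : ENNReal.ofReal c ≤ law d k hkd (⋂ n, Un hd hh k n) := by
    refine ge_of_tendsto' h1 fun n => ?_
    have := hU n
    unfold Measure.real at this
    exact (ENNReal.ofReal_le_iff_le_toReal (measure_ne_top _ _)).2 this
  have h3 : 0 < ENNReal.ofReal c := ENNReal.ofReal_pos.2 hc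
  refine lt_of_lt_of_le (lt_of_lt_of_le h3 h2) (measure_mono fun ω hω => ?_)
  exact Un_infinite hd hh hω

end

/-- there is a constant `C` such that `k ≥ C √d` choices are enough -/
theorem perc_const : ∃ C : ℝ, 0 < C ∧ ∀ (d k : ℕ) (hkd : k ≤ 2 * d), 6 ≤ d →
    C * Real.sqrt d ≤ k → 0 < theta d k hkd := by
  refine ⟨Real.sqrt (96 * (RR + 1)), Real.sqrt_pos.2 (by linarith [RR_nonneg]), ?_⟩
  intro d k hkd hd6 hk
  have hR := RR_nonneg
  set h := d / 6 with hh'
  have hh : 0 < h := Nat.div_pos hd6 (by norm_num)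
  have hd : 6 * h ≤ d := Nat.mul_div_le d 6
  have hdh : d ≤ 12 * h := by omega
  have hdr : (6 : ℝ) ≤ d := by exact_mod_cast hd6
  have hk2 : 96 * (RR + 1) * d ≤ (k : ℝ) ^ 2 := by
    have h1 : 0 ≤ Real.sqrt (96 * (RR + 1)) * Real.sqrt d := by positivity
    have h2 : (Real.sqrt (96 * (RR + 1)) * Real.sqrt d) ^ 2 ≤ (k : ℝ) ^ 2 :=
      pow_le_pow_left₀ h1 hk 2
    rw [mul_pow, Real.sq_sqrt (by positivity), Real.sq_sqrt (by positivity)] at h2
    exact h2
  have hk24 : (2 : ℝ) ≤ k := by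
    have h3 : (4 : ℝ) ≤ (k : ℝ) ^ 2 := by nlinarith
    by_contra hlt
    push Not at hlt
    have h4 : (0 : ℝ) ≤ k := Nat.cast_nonneg k
    nlinarith
  have hk2' : 2 ≤ k := by exact_mod_cast hk24
  refine theta_pos hd hh hk2' hkd ?_
  have hN : 4 ≤ 2 * d := by omega
  have hq := pr_two_pos hk2' hN
  have hhr : (0 : ℝ) < h := by exact_mod_cast hh
  rw [div_mul_eq_mul_div, div_le_iff₀ (by positivity), div_mul_eq_mul_div, one_mul,
    div_le_iff₀ hq, pr_two]
  have hdh' : (d : ℝ) ≤ 12 * h := by exact_mod_cast hdh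
  push_cast
  have h5 : (k : ℝ) / (2 * d) * ((k - 1) / (2 * d - 1)) ≥ (k : ℝ) ^ 2 / (8 * d ^ 2) := by
    rw [div_mul_div_comm, ge_iff_le, div_le_div_iff₀ (by positivity) (by nlinarith)]
    have a1 : (k : ℝ) ≤ 2 * (k - 1) := by linarith
    have a2 : (0 : ℝ) ≤ k * (4 * d ^ 2) := by positivity
    have a3 : (0 : ℝ) ≤ (k : ℝ) ^ 2 * (2 * d) := by positivity
    have a4 := mul_le_mul_of_nonneg_right a1 a2
    nlinarith
  have h6 : 12 * (RR + 1) / d ≤ (k : ℝ) ^ 2 / (8 * d ^ 2) := by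
    rw [div_le_div_iff₀ (by positivity) (by positivity)]
    nlinarith
  have h7 : 12 * (RR + 1) / d ≥ (RR + 1) / h := by
    rw [ge_iff_le, div_le_div_iff₀ hhr (by positivity)]
    nlinarith
  have h8 : (RR + 1) / h ≤ (k : ℝ) / (2 * d) * ((k - 1) / (2 * d - 1)) := by linarith
  have h9 : RR ≤ (RR + 1) / h * h := by
    rw [div_mul_cancel₀ _ hhr.ne']; linarith
  nlinarith

end Pool.Agent.X136.BN
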