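import Pool.Agent.X136.BN.Gen

set_option autoImplicit false

/-!
# Probabilities of finite requirements
-/

namespace Pool.Agent.X136.BN

open Finset MeasureTheory ProbabilityTheory

/-- the probability that a uniform `k`-subset of `N` points contains `j` given points -/
noncomputable def pr (N k j : ℕ) : ℝ := ∏ i ∈ range j, (((k : ℝ) - i) / ((N : ℝ) - i))

theorem choose_ratio {N k j : ℕ} (hj : j ≤ k) (hk : k ≤ N) :
    ((N - j).choose (k - j) : ℝ) = pr N k j * (N.choose k : ℝ) := by
  induction j with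
  | zero => simp [pr]
  | succ j ih =>
    have h1 := ih (by omega)
    unfold pr at *
    rw [Finset.prod_range_succ]
    obtain ⟨a, ha⟩ : ∃ a, N - j = a + 1 := ⟨N - j - 1, by omega⟩
    obtain ⟨b, hb⟩ : ∃ b, k - j = b + 1 := ⟨k - j - 1, by omega⟩
    have ha' : N - (j + 1) = a := by omega
    have hb' : k - (j + 1) = b := by omega
    have h2 := Nat.add_one_mul_choose_eq a b
    rw [ha, hb] at h1
    rw [ha', hb']
    have e1 : (N : ℝ) - j = a + 1 := by
      have : (N : ℝ) = a + 1 + j := by exact_mod_cast (by omega : N = a + 1 + j)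
      linarith
    have e2 : (k : ℝ) - j = b + 1 := by
      have : (k : ℝ) = b + 1 + j := by exact_mod_cast (by omega : k = b + 1 + j)
      linarith
    rw [e1, e2]
    have h3 : ((a : ℝ) + 1) * (a.choose b : ℝ) = ((a + 1).choose (b + 1) : ℝ) * (b + 1) := by
      exact_mod_cast h2
    have h4 : (0 : ℝ) < (a : ℝ) + 1 := by positivity
    rw [mul_right_comm, ← h1, mul_div_assoc', eq_div_iff h4.ne', mul_comm]
    exact h3

theorem pr_eq_zero {N k j : ℕ} (hj : k < j) : pr N k j = 0 := by
  unfold pr
  refine Finset.prod_eq_zero (Finset.mem_range.2 hj) ?_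
  simp

theorem card_supersets {d k : ℕ} (T : Finset (Dir d)) :
    (Finset.univ.filter fun S : Choice d k => T ⊆ S.1).card =
      if T.card ≤ k then (2 * d - T.card).choose (k - T.card) else 0 := by
  have hN : Fintype.card (Dir d) = 2 * d := by
    rw [Fintype.card_prod, Fintype.card_fin, Fintype.card_bool]; ring
  split_ifs with hT
  · have h1 : (Finset.powersetCard (k - T.card) (Finset.univ \ T)).card =
        (2 * d - T.card).choose (k - T.card) := by
      rw [Finset.card_powersetCard, Finset.card_sdiff_of_subset (Finset.subset_univ _),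
        Finset.card_univ, hN]
    rw [← h1]
    refine Finset.card_bij (fun S _ => S.1 \ T) ?_ ?_ ?_
    · intro S hS
      rw [Finset.mem_filter] at hS
      rw [Finset.mem_powersetCard]
      refine ⟨Finset.sdiff_subset_sdiff (Finset.subset_univ _) (le_refl _), ?_⟩
      rw [Finset.card_sdiff_of_subset hS.2, S.2]
    · intro S hS S' hS' he
      rw [Finset.mem_filter] at hS hS'
      apply Subtype.ext
      rw [← Finset.sdiff_union_of_subset hS.2, ← Finset.sdiff_union_of_subset hS'.2, he]
    · intro U hU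
      rw [Finset.mem_powersetCard] at hU
      have hdis : Disjoint U T := by
        rw [Finset.disjoint_left]
        intro x hx hx'
        exact (Finset.mem_sdiff.1 (hU.1 hx)).2 hx'
      refine ⟨⟨U ∪ T, ?_⟩, ?_, ?_⟩
      · rw [Finset.card_union_of_disjoint hdis, hU.2]; omega
      · rw [Finset.mem_filter]
        exact ⟨Finset.mem_univ _, Finset.subset_union_right⟩
      · simp only
        rw [Finset.union_sdiff_right]
        exact Finset.sdiff_eq_self_of_disjoint hdis
  · rw [Finset.card_eq_zero, Finset.filter_eq_empty_iff]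
    intro S _ hS
    exact hT (by rw [← S.2]; exact Finset.card_le_card hS)

theorem choiceLaw_supersets {d k : ℕ} (h : k ≤ 2 * d) (T : Finset (Dir d)) :
    choiceLaw d k {S | T ⊆ S.1} = ENNReal.ofReal (pr (2 * d) k T.card) := by
  haveI := choice_nonempty h
  have hN : Fintype.card (Dir d) = 2 * d := by
    rw [Fintype.card_prod, Fintype.card_fin, Fintype.card_bool]; ring
  have hcard : Fintype.card (Choice d k) = (2 * d).choose k := by
    have h1 := card_supersets (d := d) (k := k) ∅
    have h2 : (Finset.univ.filter fun S : Choice d k => (∅ : Finset (Dir d)) ⊆ S.1) =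
        Finset.univ := Finset.filter_true_of_mem fun S _ => Finset.empty_subset _
    rw [h2, Finset.card_univ, Finset.card_empty, if_pos (Nat.zero_le _)] at h1
    simpa using h1
  have hpos : 0 < (2 * d).choose k := Nat.choose_pos h
  unfold choiceLaw
  rw [uniformOn_univ]
  have e : {S : Choice d k | T ⊆ S.1} =
      ((Finset.univ.filter fun S : Choice d k => T ⊆ S.1 : Finset (Choice d k)) : Set (Choice d k)) := by
    ext S; simp
  rw [e, Measure.count_apply_finset, hcard, card_supersets]
  have hpos' : (0 : ℝ) < ((2 * d).choose k : ℝ) := by exact_mod_cast hpos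
  rw [ENNReal.div_eq_inv_mul, ← ENNReal.ofReal_natCast, ← ENNReal.ofReal_natCast,
    ← ENNReal.ofReal_inv_of_pos hpos', ← ENNReal.ofReal_mul (by positivity)]
  congr 1
  split_ifs with hT
  · rw [choose_ratio hT h]
    field_simp
  · rw [pr_eq_zero (by omega)]
    simp

instance law_prob {d k : ℕ} (h : k ≤ 2 * d) : IsProbabilityMeasure (law d k h) := by
  unfold law
  haveI := choiceLaw_prob h
  infer_instance

theorem law_requirements {d k : ℕ} (h : k ≤ 2 * d) (X : Finset (Fin d → ℤ))
    (N : (Fin d → ℤ) → Finset (Dir d)) :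
    law d k h {ω | ∀ x ∈ X, N x ⊆ (ω x).1} =
      ∏ x ∈ X, ENNReal.ofReal (pr (2 * d) k (N x).card) := by
  haveI := choiceLaw_prob h
  have e : {ω : Config d k | ∀ x ∈ X, N x ⊆ (ω x).1} =
      (X : Set (Fin d → ℤ)).pi fun x => {S : Choice d k | N x ⊆ S.1} := by
    ext ω; rfl
  unfold law
  rw [e, Measure.infinitePi_pi _ fun i _ => MeasurableSet.of_discrete]
  exact Finset.prod_congr rfl fun x _ => choiceLaw_supersets h _

theorem measurable_requirements {d k : ℕ} (X : Finset (Fin d → ℤ))
    (N : (Fin d → ℤ) → Finset (Dir d)) :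
    MeasurableSet {ω : Config d k | ∀ x ∈ X, N x ⊆ (ω x).1} := by
  have e : {ω : Config d k | ∀ x ∈ X, N x ⊆ (ω x).1} =
      (X : Set (Fin d → ℤ)).pi fun x => {S : Choice d k | N x ⊆ S.1} := by
    ext ω; rfl
  rw [e]
  exact MeasurableSet.pi X.countable_toSet fun _ _ => MeasurableSet.of_discrete

/-! ### the second moment method -/

theorem second_moment {Ω I : Type*} [MeasurableSpace Ω] (μ : Measure Ω) [IsProbabilityMeasure μ]
    [Fintype I] (A : I → Set Ω) (hA : ∀ i, MeasurableSet (A i)) :
    (∑ i, μ.real (A i)) ^ 2 ≤ μ.real (⋃ i, A i) * ∑ i, ∑ j, μ.real (A i ∩ A j) := by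
  classical
  set U := ⋃ i, A i with hU
  have hUm : MeasurableSet U := MeasurableSet.iUnion hA
  set Z : Ω → ℝ := fun ω => ∑ i, (A i).indicator (fun _ => (1 : ℝ)) ω with hZ
  set W : Ω → ℝ := U.indicator fun _ => (1 : ℝ) with hW
  have hint : ∀ i, Integrable ((A i).indicator (fun _ => (1 : ℝ))) μ := fun i =>
    (integrable_const _).indicator (hA i)
  have hZi : Integrable Z μ := integrable_finsetSum _ fun i _ => hint i
  have hEZ : ∫ ω, Z ω ∂μ = ∑ i, μ.real (A i) := by
    rw [hZ, integral_finsetSum _ fun i _ => hint i]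
    refine Finset.sum_congr rfl fun i _ => ?_
    rw [integral_indicator_const _ (hA i)]; simp
  have hWi : Integrable W μ := (integrable_const _).indicator hUm
  have hEW : ∫ ω, W ω ∂μ = μ.real U := by
    rw [hW, integral_indicator_const _ hUm]; simp
  have hZZ : ∀ ω, Z ω ^ 2 = ∑ i, ∑ j, (A i ∩ A j).indicator (fun _ => (1 : ℝ)) ω := by
    intro ω
    rw [hZ, sq, Finset.sum_mul_sum]
    refine Finset.sum_congr rfl fun i _ => Finset.sum_congr rfl fun j _ => ?_
    by_cases h1 : ω ∈ A i <;> by_cases h2 : ω ∈ A j <;> simp [h1, h2]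
  have hint2 : ∀ i j, Integrable ((A i ∩ A j).indicator (fun _ => (1 : ℝ))) μ := fun i j =>
    (integrable_const _).indicator ((hA i).inter (hA j))
  have hZ2i : Integrable (fun ω => Z ω ^ 2) μ := by
    simp only [hZZ]
    exact integrable_finsetSum _ fun i _ => integrable_finsetSum _ fun j _ => hint2 i j
  have hEZ2 : ∫ ω, Z ω ^ 2 ∂μ = ∑ i, ∑ j, μ.real (A i ∩ A j) := by
    simp only [hZZ]
    rw [integral_finsetSum _ fun i _ => integrable_finsetSum _ fun j _ => hint2 i j]
    refine Finset.sum_congr rfl fun i _ => ?_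
    rw [integral_finsetSum _ fun j _ => hint2 i j]
    refine Finset.sum_congr rfl fun j _ => ?_
    rw [integral_indicator_const _ ((hA i).inter (hA j))]; simp
  have hZW : ∀ ω, Z ω * W ω = Z ω := by
    intro ω
    by_cases h : ω ∈ U
    · simp [hW, h]
    · have : Z ω = 0 := by
        rw [hZ]
        refine Finset.sum_eq_zero fun i _ => ?_
        have : ω ∉ A i := fun h' => h (Set.mem_iUnion.2 ⟨i, h'⟩)
        simp [this]
      rw [this, zero_mul]
  have hWW : ∀ ω, W ω ^ 2 = W ω := by
    intro ω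
    by_cases h : ω ∈ U <;> simp [hW, h]
  set P := μ.real U
  set E1 := ∫ ω, Z ω ∂μ
  set E2 := ∫ ω, Z ω ^ 2 ∂μ
  have key : ∀ l : ℝ, 0 ≤ E2 - 2 * l * E1 + l ^ 2 * P := by
    intro l
    have h1 : 0 ≤ ∫ ω, (Z ω - l * W ω) ^ 2 ∂μ := integral_nonneg fun ω => sq_nonneg _
    have h2 : ∀ ω, (Z ω - l * W ω) ^ 2 = (Z ω ^ 2 - 2 * l * Z ω) + l ^ 2 * W ω := by
      intro ω
      have := hZW ω
      have := hWW ω
      calc (Z ω - l * W ω) ^ 2 = Z ω ^ 2 - 2 * l * (Z ω * W ω) + l ^ 2 * (W ω ^ 2) := by ring
        _ = _ := by rw [hZW, hWW]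
    simp only [h2] at h1
    have h3 : Integrable (fun ω => Z ω ^ 2 - 2 * l * Z ω) μ := hZ2i.sub (hZi.const_mul _)
    have h4 : Integrable (fun ω => l ^ 2 * W ω) μ := hWi.const_mul _
    have h5 : Integrable (fun ω => 2 * l * Z ω) μ := hZi.const_mul _
    rw [integral_add h3 h4, integral_sub hZ2i h5, integral_const_mul, integral_const_mul,
      hEW] at h1
    exact h1
  rw [← hEZ, ← hEZ2]
  show E1 ^ 2 ≤ P * E2
  have hP0 : 0 ≤ P := measureReal_nonneg
  rcases hP0.eq_or_lt with hP | hP
  · have h1 : E1 = 0 := by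
      by_contra hne
      have h2 := key ((E2 + 1) / (2 * E1))
      rw [← hP] at h2
      have h3 : 2 * ((E2 + 1) / (2 * E1)) * E1 = E2 + 1 := by field_simp
      rw [h3] at h2
      linarith
    rw [h1, ← hP]; simp
  · have h2 := key (E1 / P)
    have h3 : E2 - 2 * (E1 / P) * E1 + (E1 / P) ^ 2 * P = E2 - E1 ^ 2 / P := by
      field_simp
      ring
    rw [h3] at h2
    have h4 : E1 ^ 2 / P ≤ E2 := by linarith
    rw [div_le_iff₀ hP] at h4
    linarith

end Pool.Agent.X136.BN
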