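import Pool.Agent.X136.BN.Defs

set_option autoImplicit false

/-!
# Collisions of two cyclic oriented walks
-/

namespace Pool.Agent.X136.BN

open Finset

/-! ### binomial coefficients with an integer lower index -/

/-- binomial coefficient with an integer index -/
def cz (m : ℕ) (j : ℤ) : ℕ := if 0 ≤ j then m.choose j.toNat else 0

theorem cz_succ (m : ℕ) (j : ℤ) : cz (m + 1) j = cz m (j - 1) + cz m j := by
  unfold cz
  rcases lt_trichotomy j 0 with h | h | h
  · rw [if_neg (by omega), if_neg (by omega), if_neg (by omega)]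
  · subst h
    simp
  · rw [if_pos (by omega), if_pos (by omega), if_pos (by omega)]
    obtain ⟨n, hn⟩ : ∃ n : ℕ, j = n + 1 := ⟨(j - 1).toNat, by omega⟩
    subst hn
    have e1 : ((n : ℤ) + 1).toNat = n + 1 := by omega
    have e2 : ((n : ℤ) + 1 - 1).toNat = n := by omega
    rw [e1, e2, Nat.choose_succ_succ]

/-- the law at `0` of the difference of two binomials, started from `x` -/
noncomputable def fb (c : ℕ) (x : ℤ) : ℝ := (cz (2 * c) (c + x) : ℝ) / 4 ^ c

theorem fb_nonneg (c : ℕ) (x : ℤ) : 0 ≤ fb c x := by unfold fb; positivity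

theorem fb_zero (x : ℤ) : fb 0 x = if x = 0 then 1 else 0 := by
  unfold fb cz
  rcases lt_trichotomy x 0 with h | h | h
  · rw [if_neg (by simp; omega), if_neg (by omega)]; simp
  · subst h; simp
  · rw [if_pos (by simp; omega), if_neg (by omega)]
    obtain ⟨n, hn⟩ : ∃ n : ℕ, x = n + 1 := ⟨(x - 1).toNat, by omega⟩
    subst hn
    have e1 : (((0 : ℕ) : ℤ) + ((n : ℤ) + 1)).toNat = n + 1 := by omega
    rw [e1]; simp

theorem fb_succ (c : ℕ) (x : ℤ) :
    fb (c + 1) x = (fb c (x - 1) + 2 * fb c x + fb c (x + 1)) / 4 := by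
  unfold fb
  have e : 2 * (c + 1) = (2 * c + 1) + 1 := by ring
  rw [e, cz_succ, cz_succ, cz_succ]
  have e1 : ((c + 1 : ℕ) : ℤ) + x - 1 - 1 = c + (x - 1) := by push_cast; ring
  have e2 : ((c + 1 : ℕ) : ℤ) + x - 1 = c + x := by push_cast; ring
  have e3 : ((c + 1 : ℕ) : ℤ) + x = c + (x + 1) := by push_cast; ring
  rw [e1, e2, e3, pow_succ]
  push_cast
  field_simp
  ring

theorem fb_central (c : ℕ) : fb c 0 = (c.centralBinom : ℝ) / 4 ^ c := by
  unfold fb cz
  rw [if_pos (by simp)]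
  have e1 : ((c : ℤ) + 0).toNat = c := by omega
  rw [e1]; rfl

theorem fb_sq_le (c : ℕ) : (2 * (c : ℝ) + 1) * (fb c 0) ^ 2 ≤ 1 := by
  induction c with
  | zero => rw [fb_central]; simp
  | succ n ih =>
    have h1 : ((n : ℝ) + 1) * ((n + 1).centralBinom : ℝ) = 2 * (2 * n + 1) * (n.centralBinom : ℝ) := by
      exact_mod_cast Nat.succ_mul_centralBinom_succ n
    have h2 : fb (n + 1) 0 = (2 * n + 1) / (2 * n + 2) * fb n 0 := by
      rw [fb_central, fb_central, pow_succ]
      have h3 : ((n + 1).centralBinom : ℝ) = 2 * (2 * n + 1) * (n.centralBinom : ℝ) / (n + 1) := by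
        rw [eq_div_iff (by positivity), mul_comm]; exact h1
      rw [h3]
      field_simp
      ring
    rw [h2, mul_pow]
    have h4 : (2 * ((n + 1 : ℕ) : ℝ) + 1) * (((2 * n + 1) / (2 * n + 2) : ℝ)) ^ 2 ≤ 2 * n + 1 := by
      rw [div_pow, mul_div_assoc', div_le_iff₀ (by positivity)]
      push_cast
      have : (0 : ℝ) ≤ n := Nat.cast_nonneg n
      nlinarith
    calc (2 * ((n + 1 : ℕ) : ℝ) + 1) * ((((2 * n + 1) / (2 * n + 2) : ℝ)) ^ 2 * fb n 0 ^ 2)
        = ((2 * ((n + 1 : ℕ) : ℝ) + 1) * (((2 * n + 1) / (2 * n + 2) : ℝ)) ^ 2) * fb n 0 ^ 2 := by ring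
      _ ≤ (2 * n + 1) * fb n 0 ^ 2 := mul_le_mul_of_nonneg_right h4 (sq_nonneg _)
      _ ≤ 1 := ih

theorem fb_le (c : ℕ) (m : ℕ) (h : m ≤ c) : fb c 0 ≤ (2 * (m : ℝ) + 1) ^ (-(1 / 2) : ℝ) := by
  have h0 : (0 : ℝ) < 2 * c + 1 := by positivity
  have h1 : (0 : ℝ) < 2 * m + 1 := by positivity
  have h2 : (0:ℝ) ≤ (2 * (m : ℝ) + 1) ^ (-(1 / 2) : ℝ) := Real.rpow_nonneg h1.le _
  apply le_of_sq_le_sq _ h2
  rw [← Real.rpow_natCast, ← Real.rpow_natCast, ← Real.rpow_mul h1.le]
  have e : (-(1 / 2) : ℝ) * ((2 : ℕ) : ℝ) = -1 := by norm_num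
  rw [e, Real.rpow_neg_one, Real.rpow_natCast]
  have h3 : fb c 0 ^ 2 ≤ (2 * (c : ℝ) + 1)⁻¹ := by
    rw [inv_eq_one_div, le_div_iff₀ h0, mul_comm]
    exact fb_sq_le c
  refine h3.trans (inv_anti₀ h1 ?_)
  have : (m : ℝ) ≤ c := by exact_mod_cast h
  linarith

/-! ### the cyclic coordinates -/

section

variable {d h : ℕ}

/-- the alphabet of the words -/
abbrev Al (h : ℕ) : Type := Bool × Fin h

/-- the coordinate used at time `t` by the letter `a` -/
def idx (hd : 6 * h ≤ d) (t : ℕ) (a : Al h) : Fin d :=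
  ⟨((t % 3) * 2 + a.1.toNat) * h + a.2, by
    have h1 : t % 3 ≤ 2 := by omega
    have h2 : a.1.toNat ≤ 1 := Bool.toNat_le a.1
    have h3 := a.2.2
    have h4 : (t % 3) * 2 + a.1.toNat ≤ 5 := by omega
    have h5 : ((t % 3) * 2 + a.1.toNat) * h ≤ 5 * h := Nat.mul_le_mul_right _ h4
    omega⟩

theorem idx_eq_iff (hd : 6 * h ≤ d) (t t' : ℕ) (a a' : Al h) :
    idx hd t a = idx hd t' a' ↔ t % 3 = t' % 3 ∧ a = a' := by
  constructor
  · intro he
    have h0 : ((t % 3) * 2 + a.1.toNat) * h + a.2 = ((t' % 3) * 2 + a'.1.toNat) * h + a'.2 :=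
      congrArg Fin.val he
    have hh : 0 < h := lt_of_le_of_lt (Nat.zero_le _) a.2.2
    have h1 : ((t % 3) * 2 + a.1.toNat) = ((t' % 3) * 2 + a'.1.toNat) := by
      have e1 : (((t % 3) * 2 + a.1.toNat) * h + a.2) / h = (t % 3) * 2 + a.1.toNat := by
        rw [mul_comm, Nat.mul_add_div hh, Nat.div_eq_of_lt a.2.2, add_zero]
      have e2 : (((t' % 3) * 2 + a'.1.toNat) * h + a'.2) / h = (t' % 3) * 2 + a'.1.toNat := by
        rw [mul_comm, Nat.mul_add_div hh, Nat.div_eq_of_lt a'.2.2, add_zero]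
      rw [← e1, ← e2, h0]
    have h2 : a.1.toNat ≤ 1 := Bool.toNat_le a.1
    have h3 : a'.1.toNat ≤ 1 := Bool.toNat_le a'.1
    refine ⟨by omega, ?_⟩
    have h4 : a.1.toNat = a'.1.toNat := by omega
    have h5 : (a.2 : ℕ) = a'.2 := by rw [h1] at h0; omega
    refine Prod.ext ?_ (Fin.ext h5)
    rcases ha : a.1 <;> rcases ha' : a'.1 <;> rw [ha, ha'] at h4 <;> simp_all
  · rintro ⟨h1, rfl⟩
    unfold idx
    apply Fin.ext
    simp [h1]

/-- the step at time `t` with the letter `a` -/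
def ste (hd : 6 * h ≤ d) (t : ℕ) (a : Al h) : Fin d → ℤ := Pi.single (idx hd t a) 1

/-- the difference of the numbers of `true` letters of the phase `b` -/
def Bf (hd : 6 * h ≤ d) (b : ℕ) (D : Fin d → ℤ) : ℤ := ∑ i : Fin h, D (idx hd b (true, i))

theorem Bf_add (hd : 6 * h ≤ d) (b : ℕ) (D D' : Fin d → ℤ) :
    Bf hd b (D + D') = Bf hd b D + Bf hd b D' := by
  unfold Bf; rw [← Finset.sum_add_distrib]; rfl

theorem Bf_sub (hd : 6 * h ≤ d) (b : ℕ) (D D' : Fin d → ℤ) :
    Bf hd b (D - D') = Bf hd b D - Bf hd b D' := by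
  unfold Bf; rw [← Finset.sum_sub_distrib]; rfl

theorem Bf_ste (hd : 6 * h ≤ d) (b t : ℕ) (a : Al h) :
    Bf hd b (ste hd t a) = if t % 3 = b % 3 ∧ a.1 = true then 1 else 0 := by
  unfold Bf ste
  by_cases hc : t % 3 = b % 3 ∧ a.1 = true
  · rw [if_pos hc, Finset.sum_eq_single a.2]
    · have e : idx hd b (true, a.2) = idx hd t a := by
        rw [idx_eq_iff]
        exact ⟨hc.1.symm, Prod.ext hc.2.symm rfl⟩
      rw [e, Pi.single_eq_same]
    · intro i _ hi
      rw [Pi.single_eq_of_ne]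
      intro he
      rw [idx_eq_iff] at he
      exact hi (congrArg Prod.snd he.2)
    · intro h; exact absurd (Finset.mem_univ _) h
  · rw [if_neg hc]
    refine Finset.sum_eq_zero fun i _ => ?_
    rw [Pi.single_eq_of_ne]
    intro he
    rw [idx_eq_iff] at he
    exact hc ⟨he.1.symm, (congrArg Prod.fst he.2).symm⟩

/-- the probability that two walks started with the difference `D` at time `φ` meet after `t`
steps -/
noncomputable def rr (hd : 6 * h ≤ d) : ℕ → ℕ → (Fin d → ℤ) → ℝ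
  | 0, _, D => if D = 0 then 1 else 0
  | t + 1, φ, D => (∑ a : Al h, ∑ a' : Al h, rr hd t (φ + 1) (D + ste hd φ a - ste hd φ a')) /
      (2 * h) ^ 2

theorem rr_nonneg (hd : 6 * h ≤ d) (t : ℕ) : ∀ φ D, 0 ≤ rr hd t φ D := by
  induction t with
  | zero => intro φ D; unfold rr; split_ifs <;> norm_num
  | succ t ih =>
    intro φ D
    unfold rr
    exact div_nonneg (Finset.sum_nonneg fun a _ => Finset.sum_nonneg fun a' _ => ih _ _)
      (by positivity)

/-- the number of times `j < t` with `φ + j` in the class `b` modulo `3` -/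
def cnt (b : ℕ) : ℕ → ℕ → ℕ
  | 0, _ => 0
  | t + 1, φ => (if φ % 3 = b then 1 else 0) + cnt b t (φ + 1)

theorem cnt_ge (b : ℕ) (hb : b < 3) : ∀ t φ, t / 3 ≤ cnt b t φ := by
  intro t
  induction t using Nat.strong_induction_on with
  | _ t ih =>
    intro φ
    rcases Nat.lt_or_ge t 3 with h | h
    · have : t / 3 = 0 := Nat.div_eq_of_lt h
      omega
    · obtain ⟨m, rfl⟩ : ∃ m, t = m + 1 + 1 + 1 := ⟨t - 3, by omega⟩
      have h1 := ih m (by omega) (φ + 1 + 1 + 1)
      show (m + 1 + 1 + 1) / 3 ≤ (if φ % 3 = b then 1 else 0) + ((if (φ + 1) % 3 = b then 1 else 0) +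
        ((if (φ + 1 + 1) % 3 = b then 1 else 0) + cnt b m (φ + 1 + 1 + 1)))
      have h2 : (m + 1 + 1 + 1) / 3 = m / 3 + 1 := by omega
      rw [h2]
      have h3 : φ % 3 = b ∨ (φ + 1) % 3 = b ∨ (φ + 1 + 1) % 3 = b := by omega
      rcases h3 with h3 | h3 | h3
      · rw [if_pos h3]; omega
      · rw [if_pos h3]; omega
      · rw [if_pos h3]; omega

theorem sum_letters (F : ℤ → ℝ) (hh : 0 < h) :
    (∑ a : Al h, ∑ a' : Al h, F ((if a.1 = true then 1 else 0) - (if a'.1 = true then 1 else 0))) /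
      (2 * (h : ℝ)) ^ 2 = (F (-1) + 2 * F 0 + F 1) / 4 := by
  have h1 : ∀ G : Bool → ℝ, ∑ a : Al h, G a.1 = h * (G true + G false) := by
    intro G
    rw [Fintype.sum_prod_type]
    simp only [Finset.sum_const, Finset.card_univ, Fintype.card_fin, nsmul_eq_mul,
      Fintype.sum_bool]
    ring
  have h2 : ∀ a : Al h, ∑ a' : Al h,
      F ((if a.1 = true then 1 else 0) - (if a'.1 = true then 1 else 0)) =
      h * (F ((if a.1 = true then 1 else 0) - 1) + F ((if a.1 = true then 1 else 0) - 0)) := by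
    intro a
    have := h1 fun b => F ((if a.1 = true then 1 else 0) - (if b = true then 1 else 0))
    simpa using this
  rw [Finset.sum_congr rfl fun a _ => h2 a]
  have h3 := h1 fun b => (h : ℝ) * (F ((if b = true then 1 else 0) - 1) +
    F ((if b = true then 1 else 0) - 0))
  rw [h3]
  have hh' : (h : ℝ) ≠ 0 := by positivity
  simp only [if_true, Bool.false_eq_true, if_false, sub_self, sub_zero, zero_sub]
  field_simp
  ring

theorem rr_le (hd : 6 * h ≤ d) (hh : 0 < h) (t : ℕ) : ∀ φ D,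
    rr hd t φ D ≤ ∏ b ∈ range 3, fb (cnt b t φ) (Bf hd b D) := by
  induction t with
  | zero =>
    intro φ D
    unfold rr
    split_ifs with hD
    · subst hD
      have : ∀ b, Bf hd b 0 = 0 := fun b => by unfold Bf; simp
      simp only [this]
      unfold cnt
      simp [fb_zero]
    · exact Finset.prod_nonneg fun b _ => fb_nonneg _ _
  | succ t ih =>
    intro φ D
    unfold rr
    have hb0 : φ % 3 ∈ range 3 := Finset.mem_range.2 (Nat.mod_lt _ (by norm_num))
    set b0 := φ % 3 with hb0'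
    set P : ℝ := ∏ b ∈ (range 3).erase b0, fb (cnt b (t + 1) φ) (Bf hd b D) with hP
    have h1 : ∀ a a' : Al h, rr hd t (φ + 1) (D + ste hd φ a - ste hd φ a') ≤
        fb (cnt b0 t (φ + 1)) (Bf hd b0 D +
          ((if a.1 = true then 1 else 0) - (if a'.1 = true then 1 else 0))) * P := by
      intro a a'
      refine (ih _ _).trans (le_of_eq ?_)
      rw [← Finset.mul_prod_erase _ _ hb0]
      congr 1
      · rw [Bf_sub, Bf_add, Bf_ste, Bf_ste]
        have e : φ % 3 = b0 % 3 := by omega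
        simp only [e, true_and]
        congr 1
        ring
      · refine Finset.prod_congr rfl fun b hb => ?_
        have hbn : b ≠ b0 := (Finset.mem_erase.1 hb).1
        have hb3 : b < 3 := Finset.mem_range.1 (Finset.mem_erase.1 hb).2
        have e1 : cnt b (t + 1) φ = cnt b t (φ + 1) := by
          show (if φ % 3 = b then 1 else 0) + cnt b t (φ + 1) = _
          rw [if_neg (fun h => hbn (by rw [← h]))]; omega
        have e2 : ∀ a : Al h, Bf hd b (ste hd φ a) = 0 := by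
          intro a
          rw [Bf_ste, if_neg]
          rintro ⟨h2, -⟩
          have : b % 3 = b := Nat.mod_eq_of_lt hb3
          exact hbn (by rw [← this, ← h2])
        rw [e1, Bf_sub, Bf_add, e2, e2]
        congr 1
        ring
    have h2 : (∑ a : Al h, ∑ a' : Al h, rr hd t (φ + 1) (D + ste hd φ a - ste hd φ a')) /
        (2 * (h : ℝ)) ^ 2 ≤ (∑ a : Al h, ∑ a' : Al h, fb (cnt b0 t (φ + 1)) (Bf hd b0 D +
          ((if a.1 = true then 1 else 0) - (if a'.1 = true then 1 else 0))) * P) /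
        (2 * (h : ℝ)) ^ 2 := by
      refine div_le_div_of_nonneg_right ?_ (by positivity)
      exact Finset.sum_le_sum fun a _ => Finset.sum_le_sum fun a' _ => h1 a a'
    refine h2.trans (le_of_eq ?_)
    have h3 := sum_letters (fun z => fb (cnt b0 t (φ + 1)) (Bf hd b0 D + z) * P) hh
    rw [h3, ← Finset.mul_prod_erase _ _ hb0]
    have e1 : cnt b0 (t + 1) φ = cnt b0 t (φ + 1) + 1 := by
      show (if φ % 3 = b0 then 1 else 0) + cnt b0 t (φ + 1) = _
      rw [if_pos rfl]; omega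
    have e2 : ∏ b ∈ (range 3).erase b0, fb (cnt b (t + 1) φ) (Bf hd b D) = P := rfl
    rw [e2]
    rw [e1, fb_succ]
    have e3 : Bf hd b0 D + -1 = Bf hd b0 D - 1 := by ring
    simp only [e3, add_zero]
    ring

end

end Pool.Agent.X136.BN
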